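import Pool.Agent.H31.SYHD.Dfs

/-!
# HD row AlgA : the gauge on the surface `c₀ = 0` (pure algebra, `ring` / `linear_combination`)

Write `r = nsq3 x`, `E0 = pE0 1 x`, `E1 = pE1 1 x`, `E3 = pE3 1 x`, `v = (E3 - E0, -2 E1, 0)`.
1. `E0 E3 - E1² = 4 (c0 x)²` (ring after unfolding), so `E0 E3 = E1²` here.
2. `nsq4 (pG 1 1 x) = (1 + r) (E0² + 2 E1² + E3²)` (ring; norm of a product of quaternions)
   `= (1 + r) (E0 + E3)²` by 1.
3. With `E0, E1, E3` as VARIABLES and only `E0 E3 = E1²` used (prove this as a lemma about real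
   numbers `a b c E0 E1 E3`): `nrm (pG ..) = (E0 + E3) • w`, where `w = A v Ā`, `A = 1 + x`:
   `w.1 = (1 - r + 2 x₁²) v₁ + 2 x₁ x₂ v₂ - 2 x₃ v₂`,
   `w.2.1 = (1 - r + 2 x₂²) v₂ + 2 x₁ x₂ v₁ + 2 x₃ v₁`,
   `w.2.2 = 2 (x₁ v₁ + x₂ v₂) x₃ + 2 (x₁ v₂ - x₂ v₁)`.
4. `w = (E0 + E3) • gc0 x` modulo `c0 x = 0` (explicit polynomials of degree 6 in `x`; the
   cofactor of `c0 x` is found by dividing by `c0`, which is monic of degree 3 in `x₁`).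
5. `0 < E0 + E3`: both are `≥ 0`; `E0 = 0` gives `r = 1`, `x₂ = 0`, then `E3 = 4 (x₁² + x₃²) = 4`.
6. `|gc0|² = (1 + r)²` modulo `c0`: `|gc0|² - (1+r)² = 8 x₁ c0` (check the constant).
-/
set_option autoImplicit false

namespace Pool.Agent.H31.SYHD

open Pool.Agent.H34.SY

/-- The three components of `nrm` of the product, with `E0 E3 = E1²`. -/
theorem AlgA_nrm (a b c E0 E1 E3 : ℝ) (hE : E0 * E3 = E1 ^ 2) :
    -((1 * E0 - 1 * a * E1 - b * E3 - c * E1) ^ 2 + (1 * E1 + 1 * a * E0 + b * E1 - c * E3) ^ 2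
        - (1 * E3 - 1 * a * E1 + b * E0 + c * E1) ^ 2
        - (1 * E1 + 1 * a * E3 - b * E1 + c * E0) ^ 2)
      = (E0 + E3) * ((1 - (a ^ 2 + b ^ 2 + c ^ 2) + 2 * a ^ 2) * (E3 - E0)
          + 2 * a * b * (-2 * E1) - 2 * c * (-2 * E1)) ∧
    -(2 * ((1 * E1 + 1 * a * E0 + b * E1 - c * E3) * (1 * E3 - 1 * a * E1 + b * E0 + c * E1)
        + (1 * E0 - 1 * a * E1 - b * E3 - c * E1) * (1 * E1 + 1 * a * E3 - b * E1 + c * E0)))
      = (E0 + E3) * ((1 - (a ^ 2 + b ^ 2 + c ^ 2) + 2 * b ^ 2) * (-2 * E1)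
          + 2 * a * b * (E3 - E0) + 2 * c * (E3 - E0)) ∧
    -(2 * ((1 * E1 + 1 * a * E0 + b * E1 - c * E3) * (1 * E1 + 1 * a * E3 - b * E1 + c * E0)
        - (1 * E0 - 1 * a * E1 - b * E3 - c * E1) * (1 * E3 - 1 * a * E1 + b * E0 + c * E1)))
      = (E0 + E3) * (2 * (a * (E3 - E0) + b * (-2 * E1)) * c
          + 2 * (a * (-2 * E1) - b * (E3 - E0))) := by
  have h1 : E1 ^ 2 = E0 * E3 := hE.symm
  refine ⟨?_, ?_, ?_⟩
  · ring_nf
    rw [h1]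
    ring
  · ring_nf
    rw [h1]
    ring
  · ring_nf
    rw [h1]
    ring

theorem AlgA_main (x : V3) (h : c0 x = 0) :
    0 < pE0 1 x + pE3 1 x ∧
    nsq4 (pG 1 1 x) = (1 + nsq3 x) * (pE0 1 x + pE3 1 x) ^ 2 ∧
    nrm (pG 1 1 x) = ((pE0 1 x + pE3 1 x) ^ 2 * (gc0 x).1, (pE0 1 x + pE3 1 x) ^ 2 * (gc0 x).2.1,
      (pE0 1 x + pE3 1 x) ^ 2 * (gc0 x).2.2) ∧
    nsq3 (gc0 x) = (1 + nsq3 x) ^ 2 := by
  obtain ⟨a, b, c⟩ := x
  have hc : a * (a ^ 2 + b ^ 2 + c ^ 2 - 1) + 2 * b * c = 0 := by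
    simpa [c0, nsq3] using h
  have hE : pE0 1 (a, b, c) * pE3 1 (a, b, c) = pE1 1 (a, b, c) ^ 2 := by
    have : pE0 1 (a, b, c) * pE3 1 (a, b, c) - pE1 1 (a, b, c) ^ 2
        = 4 * (a * (a ^ 2 + b ^ 2 + c ^ 2 - 1) + 2 * b * c) ^ 2 := by
      simp only [pE0, pE1, pE3, nsq3]
      ring
    rw [hc] at this
    linarith
  have hpos0 : 0 ≤ pE0 1 (a, b, c) := by
    simp only [pE0, nsq3]; positivity
  have hpos3 : 0 ≤ pE3 1 (a, b, c) := by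
    simp only [pE3]; positivity
  have hpos : 0 < pE0 1 (a, b, c) + pE3 1 (a, b, c) := by
    rcases hpos0.eq_or_lt with h0 | h0
    · have h1 : (a ^ 2 + b ^ 2 + c ^ 2 - 1) ^ 2 + 4 * b ^ 2 = 0 := by
        have := h0.symm
        simp only [pE0, nsq3] at this
        nlinarith [this]
      have hb : b ^ 2 = 0 := by nlinarith [sq_nonneg (a ^ 2 + b ^ 2 + c ^ 2 - 1), sq_nonneg b]
      have hr : (a ^ 2 + b ^ 2 + c ^ 2 - 1) ^ 2 = 0 := by nlinarith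
      have hr' : a ^ 2 + b ^ 2 + c ^ 2 - 1 = 0 := by simpa using hr
      have : pE3 1 (a, b, c) = 4 := by
        simp only [pE3]
        nlinarith
      rw [← h0, this]; norm_num
    · linarith
  refine ⟨hpos, ?_, ?_, ?_⟩
  · have h1 : nsq4 (pG 1 1 (a, b, c))
        = (1 + nsq3 (a, b, c)) * (pE0 1 (a, b, c) ^ 2 + 2 * pE1 1 (a, b, c) ^ 2
          + pE3 1 (a, b, c) ^ 2) := by
      simp only [nsq4, pG, nsq3]
      ring
    rw [h1, ← hE]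
    ring
  · have h2 := AlgA_nrm a b c (pE0 1 (a, b, c)) (pE1 1 (a, b, c)) (pE3 1 (a, b, c)) hE
    obtain ⟨k1, k2, k3⟩ := h2
    have e1 : (1 - (a ^ 2 + b ^ 2 + c ^ 2) + 2 * a ^ 2) * (pE3 1 (a, b, c) - pE0 1 (a, b, c))
          + 2 * a * b * (-2 * pE1 1 (a, b, c)) - 2 * c * (-2 * pE1 1 (a, b, c))
        = (pE0 1 (a, b, c) + pE3 1 (a, b, c)) * (gc0 (a, b, c)).1 := by
      have : (1 - (a ^ 2 + b ^ 2 + c ^ 2) + 2 * a ^ 2) * (pE3 1 (a, b, c) - pE0 1 (a, b, c))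
          + 2 * a * b * (-2 * pE1 1 (a, b, c)) - 2 * c * (-2 * pE1 1 (a, b, c))
        - (pE0 1 (a, b, c) + pE3 1 (a, b, c)) * (gc0 (a, b, c)).1
          = -4 * (1 + (a ^ 2 + b ^ 2 + c ^ 2)) * a
            * (a * (a ^ 2 + b ^ 2 + c ^ 2 - 1) + 2 * b * c) := by
        simp only [pE0, pE1, pE3, nsq3, gc0]
        ring
      rw [hc] at this
      linarith
    have e2 : (1 - (a ^ 2 + b ^ 2 + c ^ 2) + 2 * b ^ 2) * (-2 * pE1 1 (a, b, c))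
          + 2 * a * b * (pE3 1 (a, b, c) - pE0 1 (a, b, c))
          + 2 * c * (pE3 1 (a, b, c) - pE0 1 (a, b, c))
        = (pE0 1 (a, b, c) + pE3 1 (a, b, c)) * (gc0 (a, b, c)).2.1 := by
      have : (1 - (a ^ 2 + b ^ 2 + c ^ 2) + 2 * b ^ 2) * (-2 * pE1 1 (a, b, c))
          + 2 * a * b * (pE3 1 (a, b, c) - pE0 1 (a, b, c))
          + 2 * c * (pE3 1 (a, b, c) - pE0 1 (a, b, c))
        - (pE0 1 (a, b, c) + pE3 1 (a, b, c)) * (gc0 (a, b, c)).2.1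
          = -4 * (1 + (a ^ 2 + b ^ 2 + c ^ 2)) * b
            * (a * (a ^ 2 + b ^ 2 + c ^ 2 - 1) + 2 * b * c) := by
        simp only [pE0, pE1, pE3, nsq3, gc0]
        ring
      rw [hc] at this
      linarith
    have e3 : 2 * (a * (pE3 1 (a, b, c) - pE0 1 (a, b, c)) + b * (-2 * pE1 1 (a, b, c))) * c
          + 2 * (a * (-2 * pE1 1 (a, b, c)) - b * (pE3 1 (a, b, c) - pE0 1 (a, b, c)))
        = (pE0 1 (a, b, c) + pE3 1 (a, b, c)) * (gc0 (a, b, c)).2.2 := by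
      have : 2 * (a * (pE3 1 (a, b, c) - pE0 1 (a, b, c)) + b * (-2 * pE1 1 (a, b, c))) * c
          + 2 * (a * (-2 * pE1 1 (a, b, c)) - b * (pE3 1 (a, b, c) - pE0 1 (a, b, c)))
        - (pE0 1 (a, b, c) + pE3 1 (a, b, c)) * (gc0 (a, b, c)).2.2
          = -4 * (1 + (a ^ 2 + b ^ 2 + c ^ 2)) * c
            * (a * (a ^ 2 + b ^ 2 + c ^ 2 - 1) + 2 * b * c) := by
        simp only [pE0, pE1, pE3, nsq3, gc0]
        ring
      rw [hc] at this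
      linarith
    rw [e1] at k1
    rw [e2] at k2
    rw [e3] at k3
    refine Prod.ext ?_ (Prod.ext ?_ ?_)
    · show -((1 * pE0 1 (a, b, c) - 1 * a * pE1 1 (a, b, c) - b * pE3 1 (a, b, c)
          - c * pE1 1 (a, b, c)) ^ 2 + (1 * pE1 1 (a, b, c) + 1 * a * pE0 1 (a, b, c)
          + b * pE1 1 (a, b, c) - c * pE3 1 (a, b, c)) ^ 2
        - (1 * pE3 1 (a, b, c) - 1 * a * pE1 1 (a, b, c) + b * pE0 1 (a, b, c)
          + c * pE1 1 (a, b, c)) ^ 2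
        - (1 * pE1 1 (a, b, c) + 1 * a * pE3 1 (a, b, c) - b * pE1 1 (a, b, c)
          + c * pE0 1 (a, b, c)) ^ 2) = _
      rw [k1]
      ring
    · show -(2 * ((1 * pE1 1 (a, b, c) + 1 * a * pE0 1 (a, b, c) + b * pE1 1 (a, b, c)
          - c * pE3 1 (a, b, c)) * (1 * pE3 1 (a, b, c) - 1 * a * pE1 1 (a, b, c)
          + b * pE0 1 (a, b, c) + c * pE1 1 (a, b, c))
        + (1 * pE0 1 (a, b, c) - 1 * a * pE1 1 (a, b, c) - b * pE3 1 (a, b, c)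
          - c * pE1 1 (a, b, c)) * (1 * pE1 1 (a, b, c) + 1 * a * pE3 1 (a, b, c)
          - b * pE1 1 (a, b, c) + c * pE0 1 (a, b, c)))) = _
      rw [k2]
      ring
    · show -(2 * ((1 * pE1 1 (a, b, c) + 1 * a * pE0 1 (a, b, c) + b * pE1 1 (a, b, c)
          - c * pE3 1 (a, b, c)) * (1 * pE1 1 (a, b, c) + 1 * a * pE3 1 (a, b, c)
          - b * pE1 1 (a, b, c) + c * pE0 1 (a, b, c))
        - (1 * pE0 1 (a, b, c) - 1 * a * pE1 1 (a, b, c) - b * pE3 1 (a, b, c)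
          - c * pE1 1 (a, b, c)) * (1 * pE3 1 (a, b, c) - 1 * a * pE1 1 (a, b, c)
          + b * pE0 1 (a, b, c) + c * pE1 1 (a, b, c)))) = _
      rw [k3]
      ring
  · have : nsq3 (gc0 (a, b, c)) - (1 + nsq3 (a, b, c)) ^ 2
        = 8 * a * (a * (a ^ 2 + b ^ 2 + c ^ 2 - 1) + 2 * b * c) := by
      simp only [nsq3, gc0]
      ring
    rw [hc] at this
    linarith

end Pool.Agent.H31.SYHD
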