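import Pool.Agent.H31.SYHD.Dfs

/-!
# HD row AlgB : tameness on the core `c₀ = 0` (pure algebra)

`r = nsq3 x`, `t = x₁²`, `s = 1 + r`.  Modulo `c0 x = 0`:
`4 s² dot3 (vV x) (gc0 x) - nsq3 (vV x) = D`,
`D = 3+16t-16t²+16t³ + r(10+80t-48t²+32t³) + r²(9+56t-64t²+16t³) + r³(52-8t-48t²)
   + r⁴(41-24t-16t²) + r⁵(10-8t) + 3r⁶`  (checked numerically).
How to prove it: put `a = x₁, p = x₂²+x₃², m = x₂²-x₃², w = 2x₂x₃` (`m² + w² = p²`, `r = a²+p`,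
`w = -a(r-1)`).  Then
* `dot3 (vV x) (gc0 x) = (s³-2s+4p)(2a²+r-1) + [8s²(aw+p) - 8m²s - 8a(ap+w)]` (ring),
* the two last components of `vV x` have square sum `16s²(p(s²+m²) - 2sm²) - 32 a w s² + 16 a² p` (ring),
* substitute `m² = p² - w²`, `w = -a(r-1)`, `p = r - a²`: everything is a polynomial in `a² = t` and `r`;
  `ring` finishes.
`D > 0`: `t ≤ 1` on `c0 = 0` (if `a = |x₁| > 1` then `a (r-1) = |2x₂x₃| ≤ r - a²` gives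
`r (a-1) ≤ -a (a-1) < 0`, contradiction), `0 ≤ t ≤ r`.  For `0 ≤ t ≤ 1`: `3+16t-16t²+16t³ ≥ 3`,
`10+80t-48t²+32t³ ≥ 10`, `9+56t-64t²+16t³ ≥ 9`, `52-8t-48t² ≥ -4`, `41-24t-16t² ≥ 1`, `10-8t ≥ 2`, and
`9r² - 4r³ + r⁴ ≥ 5 r²`.
-/

set_option autoImplicit false

namespace Pool.Agent.H31.SYHD

open Pool.Agent.H34.SY

/-- The polynomial `D`. -/
theorem AlgB_D (t r : ℝ) (ht0 : 0 ≤ t) (ht1 : t ≤ 1) (hr : 0 ≤ r) :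
    0 < 3 + 16 * t - 16 * t ^ 2 + 16 * t ^ 3 + r * (10 + 80 * t - 48 * t ^ 2 + 32 * t ^ 3)
      + r ^ 2 * (9 + 56 * t - 64 * t ^ 2 + 16 * t ^ 3) + r ^ 3 * (52 - 8 * t - 48 * t ^ 2)
      + r ^ 4 * (41 - 24 * t - 16 * t ^ 2) + r ^ 5 * (10 - 8 * t) + 3 * r ^ 6 := by
  have t2 : 0 ≤ t ^ 2 := sq_nonneg t
  have t3 : 0 ≤ t ^ 3 := by positivity
  have tt : 0 ≤ t * (1 - t) := mul_nonneg ht0 (by linarith)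
  have a0 : 0 < 3 + 16 * t - 16 * t ^ 2 + 16 * t ^ 3 := by nlinarith
  have a1 : 0 ≤ 10 + 80 * t - 48 * t ^ 2 + 32 * t ^ 3 := by nlinarith
  have a2 : 9 ≤ 9 + 56 * t - 64 * t ^ 2 + 16 * t ^ 3 := by
    have h3 : 0 ≤ t * (56 - 64 * t + 16 * t ^ 2) := by
      apply mul_nonneg ht0
      nlinarith [sq_nonneg (t - 1)]
    nlinarith
  have a3 : -4 ≤ 52 - 8 * t - 48 * t ^ 2 := by nlinarith
  have a4 : 1 ≤ 41 - 24 * t - 16 * t ^ 2 := by nlinarith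
  have a5 : 0 ≤ 10 - 8 * t := by linarith
  have r2 : 0 ≤ r ^ 2 := sq_nonneg r
  have r3 : 0 ≤ r ^ 3 := by positivity
  have r4 : 0 ≤ r ^ 4 := by positivity
  have r5 : 0 ≤ r ^ 5 := by positivity
  have r6 : 0 ≤ r ^ 6 := by positivity
  have b1 := mul_nonneg hr a1
  have b2 := mul_le_mul_of_nonneg_left a2 r2
  have b3 := mul_le_mul_of_nonneg_left a3 r3
  have b4 := mul_le_mul_of_nonneg_left a4 r4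
  have b5 := mul_nonneg r5 a5
  have b6 : 0 ≤ r ^ 2 * 9 + r ^ 3 * (-4) + r ^ 4 * 1 := by
    have : r ^ 2 * 9 + r ^ 3 * (-4) + r ^ 4 * 1 = r ^ 2 * ((r - 2) ^ 2 + 5) := by ring
    rw [this]; positivity
  linarith

theorem AlgB_t (a b c : ℝ) (hc : a * (a ^ 2 + b ^ 2 + c ^ 2 - 1) + 2 * b * c = 0) :
    a ^ 2 ≤ 1 := by
  by_contra hcon
  push Not at hcon
  have hp : 0 ≤ b ^ 2 + c ^ 2 := by positivity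
  have h1 : 4 * (b * c) ^ 2 ≤ (b ^ 2 + c ^ 2) ^ 2 := by nlinarith [sq_nonneg (b ^ 2 - c ^ 2)]
  have h2 : a ^ 2 * (a ^ 2 + b ^ 2 + c ^ 2 - 1) ^ 2 ≤ (b ^ 2 + c ^ 2) ^ 2 := by
    have : a * (a ^ 2 + b ^ 2 + c ^ 2 - 1) = -(2 * b * c) := by linarith
    calc a ^ 2 * (a ^ 2 + b ^ 2 + c ^ 2 - 1) ^ 2 = (a * (a ^ 2 + b ^ 2 + c ^ 2 - 1)) ^ 2 := by ring
      _ = 4 * (b * c) ^ 2 := by rw [this]; ring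
      _ ≤ _ := h1
  have h3 : b ^ 2 + c ^ 2 < a ^ 2 + b ^ 2 + c ^ 2 - 1 := by linarith
  have h4 : (b ^ 2 + c ^ 2) ^ 2 < (a ^ 2 + b ^ 2 + c ^ 2 - 1) ^ 2 :=
    pow_lt_pow_left₀ h3 hp (by norm_num)
  nlinarith [sq_nonneg (a ^ 2 + b ^ 2 + c ^ 2 - 1)]

set_option maxHeartbeats 4000000 in
theorem AlgB_key (a b c : ℝ) :
    4 * (1 + (a ^ 2 + b ^ 2 + c ^ 2)) ^ 2 *
      (((1 + (a ^ 2 + b ^ 2 + c ^ 2)) ^ 3 - 2 * (1 + (a ^ 2 + b ^ 2 + c ^ 2))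
          + 4 * (b ^ 2 + c ^ 2)) * (2 * a ^ 2 + (a ^ 2 + b ^ 2 + c ^ 2) - 1)
        + (4 * c * (1 + (a ^ 2 + b ^ 2 + c ^ 2)) ^ 2
          + 4 * c * (b ^ 2 - c ^ 2) * (1 + (a ^ 2 + b ^ 2 + c ^ 2)) - 4 * a * b)
            * (2 * a * b + 2 * c)
        + (4 * b * (1 + (a ^ 2 + b ^ 2 + c ^ 2)) ^ 2
          - 4 * b * (b ^ 2 - c ^ 2) * (1 + (a ^ 2 + b ^ 2 + c ^ 2)) - 4 * a * c)
            * (2 * a * c + 2 * b))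
    - (((1 + (a ^ 2 + b ^ 2 + c ^ 2)) ^ 3 - 2 * (1 + (a ^ 2 + b ^ 2 + c ^ 2))
          + 4 * (b ^ 2 + c ^ 2)) ^ 2
        + (4 * c * (1 + (a ^ 2 + b ^ 2 + c ^ 2)) ^ 2
          + 4 * c * (b ^ 2 - c ^ 2) * (1 + (a ^ 2 + b ^ 2 + c ^ 2)) - 4 * a * b) ^ 2
        + (4 * b * (1 + (a ^ 2 + b ^ 2 + c ^ 2)) ^ 2
          - 4 * b * (b ^ 2 - c ^ 2) * (1 + (a ^ 2 + b ^ 2 + c ^ 2)) - 4 * a * c) ^ 2)
    - (3 + 16 * a ^ 2 - 16 * (a ^ 2) ^ 2 + 16 * (a ^ 2) ^ 3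
        + (a ^ 2 + b ^ 2 + c ^ 2) * (10 + 80 * a ^ 2 - 48 * (a ^ 2) ^ 2 + 32 * (a ^ 2) ^ 3)
        + (a ^ 2 + b ^ 2 + c ^ 2) ^ 2 * (9 + 56 * a ^ 2 - 64 * (a ^ 2) ^ 2 + 16 * (a ^ 2) ^ 3)
        + (a ^ 2 + b ^ 2 + c ^ 2) ^ 3 * (52 - 8 * a ^ 2 - 48 * (a ^ 2) ^ 2)
        + (a ^ 2 + b ^ 2 + c ^ 2) ^ 4 * (41 - 24 * a ^ 2 - 16 * (a ^ 2) ^ 2)
        + (a ^ 2 + b ^ 2 + c ^ 2) ^ 5 * (10 - 8 * a ^ 2) + 3 * (a ^ 2 + b ^ 2 + c ^ 2) ^ 6)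
    = (32*a^9 + 112*a^7*b^2 + 112*a^7*c^2 + 128*a^7 + 144*a^5*b^4 + 288*a^5*b^2*c^2 +
        368*a^5*b^2 + 144*a^5*c^4 + 368*a^5*c^2 + 192*a^5 + 32*a^4*b^3*c + 32*a^4*b*c^3 +
        80*a^3*b^6 + 240*a^3*b^4*c^2 + 352*a^3*b^4 + 240*a^3*b^2*c^4 + 704*a^3*b^2*c^2 +
        400*a^3*b^2 + 80*a^3*c^6 + 352*a^3*c^4 + 400*a^3*c^2 + 128*a^3 + 64*a^2*b^5*c +
        128*a^2*b^3*c^3 + 64*a^2*b^3*c + 64*a^2*b*c^5 + 64*a^2*b*c^3 + 16*a*b^8 + 64*a*b^6*c^2 +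
        112*a*b^6 + 96*a*b^4*c^4 + 336*a*b^4*c^2 + 208*a*b^4 + 64*a*b^2*c^6 + 336*a*b^2*c^4 +
        416*a*b^2*c^2 + 144*a*b^2 + 16*a*c^8 + 112*a*c^6 + 208*a*c^4 + 144*a*c^2 + 32*a +
        32*b^7*c + 96*b^5*c^3 + 64*b^5*c + 96*b^3*c^5 + 128*b^3*c^3 + 32*b^3*c + 32*b*c^7 +
        64*b*c^5 + 32*b*c^3)
      * (a * (a ^ 2 + b ^ 2 + c ^ 2 - 1) + 2 * b * c) := by
  ring

theorem AlgB_main (x : V3) (h : c0 x = 0) :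
    nsq3 (vV x) < 4 * (1 + nsq3 x) ^ 2 * dot3 (vV x) (gc0 x) := by
  obtain ⟨a, b, c⟩ := x
  have hc : a * (a ^ 2 + b ^ 2 + c ^ 2 - 1) + 2 * b * c = 0 := by
    simpa [c0, nsq3] using h
  have hk := AlgB_key a b c
  rw [hc, mul_zero] at hk
  have hD := AlgB_D (a ^ 2) (a ^ 2 + b ^ 2 + c ^ 2) (sq_nonneg a) (AlgB_t a b c hc)
    (by positivity)
  simp only [nsq3, vV, gc0, dot3]
  linarith

end Pool.Agent.H31.SYHD
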