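import Pool.Agent.H31.SYHD.Gau

/-!
# HD row Cfn : elementary properties of `hC` and `hGa`

`l = hLam L x ∈ [0,1]`, `r = nsq3 x`.  `l = 1` for `r ≤ L²` (`Real.smoothTransition.zero_of_nonpos`), `l = 0` for
`4 L² ≤ r` (`Real.smoothTransition.one_of_one_le`).
1. denominator `l² + r > 0`: if `r ≤ L²` then `l = 1`, else `r > L² ≥ 1`.  `1 + r > 0`.
2. smooth: `cut` smooth (`Real.smoothTransition.contDiff`), polynomials, division.
3. bound: `hC - x₁ = 2 l (x₂ x₃ - l x₁) / (l² + r)`, `|2 l x₂x₃| ≤ l (x₂²+x₃²) ≤ r`... more precisely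
   `|2 l (x₂x₃ - l x₁)| ≤ l (x₂²+x₃²) + l (l² + x₁²) ≤ l (l² + r) ≤ 2 (l² + r)`  (use `2 l |x₁| ≤ l² + x₁²`).
-/

set_option autoImplicit false

open scoped ContDiff

namespace Pool.Agent.H31.SYHD

open Pool.Agent.H34.SY

theorem Cfn_nsq_nonneg (x : V3) : 0 ≤ nsq3 x := by
  unfold nsq3
  positivity

theorem Cfn_lam_one (L : ℝ) (hL : 1 ≤ L) (x : V3) (hx : nsq3 x ≤ L ^ 2) : hLam L x = 1 :=
  Gau_cut_one _ _ _ (by positivity) hx

theorem Cfn_lam_zero (L : ℝ) (hL : 1 ≤ L) (x : V3) (hx : 4 * L ^ 2 ≤ nsq3 x) :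
    hLam L x = 0 :=
  Gau_cut_zero _ _ _ (by positivity) (by linarith)

theorem Cfn_lam_nonneg (L : ℝ) (x : V3) : 0 ≤ hLam L x := Gau_cut_nonneg _ _ _

theorem Cfn_lam_le_one (L : ℝ) (x : V3) : hLam L x ≤ 1 := by
  unfold hLam cut
  linarith [Real.smoothTransition.nonneg ((nsq3 x - L ^ 2) / (3 * L ^ 2))]

theorem Cfn_den_pos (L : ℝ) (hL : 1 ≤ L) (x : V3) : 0 < hLam L x ^ 2 + nsq3 x := by
  rcases le_or_gt (nsq3 x) (L ^ 2) with h | h
  · rw [Cfn_lam_one L hL x h]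
    have := Cfn_nsq_nonneg x
    linarith
  · have h1 : 0 < L ^ 2 := by positivity
    have h2 := sq_nonneg (hLam L x)
    linarith

theorem Cfn_main (L : ℝ) (hL : 1 ≤ L) :
    ContDiff ℝ ∞ (hC L) ∧ ContDiff ℝ ∞ (hGa L) ∧
    (∀ x, nsq3 x ≤ L ^ 2 → hC L x = 1 * c0 x / (1 + nsq3 x)) ∧
    (∀ x, 4 * L ^ 2 ≤ nsq3 x → hC L x = x.1 ∧ hGa L x = 0) ∧
    ∀ x, |hC L x - x.1| ≤ 2 := by
  have h1 : ContDiff ℝ ∞ (fun a : V3 => a.1) := contDiff_fst
  have h2 : ContDiff ℝ ∞ (fun a : V3 => a.2.1) := contDiff_fst.comp contDiff_snd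
  have h3 : ContDiff ℝ ∞ (fun a : V3 => a.2.2) := contDiff_snd.comp contDiff_snd
  have hl := Gau_lam_smooth L
  have hn := Gau_nsq3_smooth
  refine ⟨?_, ?_, ?_, ?_, ?_⟩
  · unfold hC
    exact ((h1.mul (hn.sub (hl.pow 2))).add (((contDiff_const.mul hl).mul h2).mul h3)).div
      ((hl.pow 2).add hn) (fun x => (Cfn_den_pos L hL x).ne')
  · have hs : ContDiff ℝ ∞ (fun x : V3 => 1 + nsq3 x) := contDiff_const.add hn
    have hs0 : ∀ x : V3, (1 + nsq3 x) ≠ 0 := fun x => by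
      have := Cfn_nsq_nonneg x
      positivity
    have hs1 : ∀ x : V3, (1 + nsq3 x) ^ 2 ≠ 0 := fun x => pow_ne_zero 2 (hs0 x)
    unfold hGa
    exact (hl.mul ((contDiff_const.mul ((h2.pow 2).sub (h3.pow 2))).div hs hs0)).prodMk
      ((hl.mul (h3.div (hs.pow 2) hs1)).prodMk (hl.mul (h2.neg.div (hs.pow 2) hs1)))
  · intro x hx
    unfold hC c0
    rw [Cfn_lam_one L hL x hx]
    ring
  · intro x hx
    have hr : 0 < nsq3 x := by nlinarith
    constructor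
    · unfold hC
      rw [Cfn_lam_zero L hL x hx]
      field_simp
      ring
    · unfold hGa
      rw [Cfn_lam_zero L hL x hx]
      simp
  · intro x
    have hd := Cfn_den_pos L hL x
    have hl0 := Cfn_lam_nonneg L x
    have hl1 := Cfn_lam_le_one L x
    have e : hC L x - x.1 = 2 * hLam L x * (x.2.1 * x.2.2 - hLam L x * x.1)
        / (hLam L x ^ 2 + nsq3 x) := by
      unfold hC
      rw [div_sub' hd.ne']
      congr 1
      ring
    rw [e, abs_div, abs_of_pos hd, div_le_iff₀ hd, abs_le]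
    obtain ⟨a, b, c⟩ := x
    set l := hLam L (a, b, c)
    have hnr : nsq3 (a, b, c) = a ^ 2 + b ^ 2 + c ^ 2 := rfl
    rw [hnr] at hd ⊢
    simp only
    have k1 : l * (b + c) ^ 2 ≥ 0 := by positivity
    have k2 : l * (b - c) ^ 2 ≥ 0 := by positivity
    have k3 : l * (l + a) ^ 2 ≥ 0 := by positivity
    have k4 : l * (l - a) ^ 2 ≥ 0 := by positivity
    have k5 : 0 ≤ (1 - l) * (l ^ 2 + (a ^ 2 + b ^ 2 + c ^ 2)) :=
      mul_nonneg (by linarith) hd.le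
    constructor <;> nlinarith

end Pool.Agent.H31.SYHD
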