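import Pool.Agent.H34.SY.Geo

/-!
# MP_46177c, block HD: the explicit handle (K = 1, Sb = 2, B = 5 L) -- definitions

`lam` is `1` for `|x| ≤ L` and `0` for `2 L ≤ |x|`; `lam3` is `1` for `|x'| ≤ 4 L` and `0` for
`5 L ≤ |x'|`, `x' = (x₂, x₃)`.
-/

open Set Topology
open scoped ContDiff

namespace Pool.Agent.H31.SYHD

open Pool.Agent.H34.SY

noncomputable section

/-- `cut a T` composed with `|x|²`: the radial cut-off `lam`. -/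
def hLam (L : ℝ) (x : V3) : ℝ := cut (L ^ 2) (3 * L ^ 2) (nsq3 x)

/-- The cut-off `lam3` in `|x'|²`. -/
def hLam3 (L : ℝ) (x : V3) : ℝ := cut (16 * L ^ 2) (9 * L ^ 2) (x.2.1 ^ 2 + x.2.2 ^ 2)

/-- The function `c`. -/
def hC (L : ℝ) (x : V3) : ℝ :=
  (x.1 * (nsq3 x - hLam L x ^ 2) + 2 * hLam L x * x.2.1 * x.2.2) / (hLam L x ^ 2 + nsq3 x)

/-- The one-form `ga`. -/
def hGa (L : ℝ) (x : V3) : V3 :=
  (hLam L x * (-2 * (x.2.1 ^ 2 - x.2.2 ^ 2) / (1 + nsq3 x)),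
    hLam L x * (x.2.2 / (1 + nsq3 x) ^ 2), hLam L x * (-x.2.1 / (1 + nsq3 x) ^ 2))

/-- `E₀`, as a function of `lam` and `x`. -/
def pE0 (l : ℝ) (x : V3) : ℝ := (nsq3 x - l ^ 2) ^ 2 + 4 * l ^ 2 * x.2.1 ^ 2

/-- `E₁`. -/
def pE1 (l : ℝ) (x : V3) : ℝ := 2 * l * (nsq3 x - l ^ 2) * x.2.2 - 4 * l ^ 2 * x.1 * x.2.1

/-- `E₃`. -/
def pE3 (l : ℝ) (x : V3) : ℝ := 4 * l ^ 2 * (x.1 ^ 2 + x.2.2 ^ 2)

/-- The quaternion product `(l + m x₁ i + x₂ j + x₃ k) (E₀ + E₁ i + E₃ j + E₁ k)`. -/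
def pG (l m : ℝ) (x : V3) : V4 :=
  (l * pE0 l x - m * x.1 * pE1 l x - x.2.1 * pE3 l x - x.2.2 * pE1 l x,
    l * pE1 l x + m * x.1 * pE0 l x + x.2.1 * pE1 l x - x.2.2 * pE3 l x,
    l * pE3 l x - m * x.1 * pE1 l x + x.2.1 * pE0 l x + x.2.2 * pE1 l x,
    l * pE1 l x + m * x.1 * pE3 l x - x.2.1 * pE1 l x + x.2.2 * pE0 l x)

/-- Multiplication of a quadruple by a real number. -/
def smul4 (r : ℝ) (g : V4) : V4 := (r * g.1, r * g.2.1, r * g.2.2.1, r * g.2.2.2)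

/-- The gauge `g`. -/
def hG (L : ℝ) (x : V3) : V4 :=
  smul4 (Real.sqrt (nsq4 (pG (hLam L x) (hLam3 L x) x)))⁻¹ (pG (hLam L x) (hLam3 L x) x)

/-- The gradient of `c₀`. -/
def gc0 (x : V3) : V3 :=
  (2 * x.1 ^ 2 + nsq3 x - 1, 2 * x.1 * x.2.1 + 2 * x.2.2, 2 * x.1 * x.2.2 + 2 * x.2.1)

/-- `V = e₁ + curl ga` in the region `|x| < L`, times `(1 + |x|²)³`. -/
def vV (x : V3) : V3 :=
  ((1 + nsq3 x) ^ 3 - 2 * (1 + nsq3 x) + 4 * (x.2.1 ^ 2 + x.2.2 ^ 2),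
    4 * x.2.2 * (1 + nsq3 x) ^ 2 + 4 * x.2.2 * (x.2.1 ^ 2 - x.2.2 ^ 2) * (1 + nsq3 x)
      - 4 * x.1 * x.2.1,
    4 * x.2.1 * (1 + nsq3 x) ^ 2 - 4 * x.2.1 * (x.2.1 ^ 2 - x.2.2 ^ 2) * (1 + nsq3 x)
      - 4 * x.1 * x.2.2)

end

end Pool.Agent.H31.SYHD
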