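import Pool.Agent.H31.SYHD.Cfn

/-!
# HD row Far : `nrm (hG L x)` is close to `e₁` on the surface `hC L = 0`, `L ≤ |x|`

`l = hLam L x`, `m = hLam3 L x ∈ [0,1]`, `r = nsq3 x ≥ L² ≥ 10⁶`, `G = pG l m x`.
1. `nrm (smul4 k g) = k² nrm g`, `nsq4 (smul4 k g) = k² nsq4 g`, and `nsq3 (nrm g) = (nsq4 g)²` (ring).  So with
   `n = nrm (hG L x)`: `n₁ = 1 - 2 (G0² + G1²)/nsq4 G` and (`nsq4 (hG L x) = 1` when `nsq4 G > 0`) `|n|² = 1`; so it is enough to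
   show `200 (G0² + G1²) ≤ 3 nsq4 G`: then `n₁ ≥ 97/100` and `n₂² + n₃² ≤ 1 - 0.9409 < 1/16`.
2. `hC = 0` and `l² + r > 0` give `x₁ (r - l²) = -2 l x₂ x₃`, so `|x₁| (r - 1) ≤ r`, `|x₁| ≤ 2`.
3. `nsq4 G = (l² + m² x₁² + x₂² + x₃²) (E0² + 2E1² + E3²) ≥ (x₂²+x₃²) E0² ≥ (r - 4) E0²`.
4. Bounds (`q = √r`, all `|x_i| ≤ q`): `E0 ≥ (r-1)² ≥ r²/2`, `|E1| ≤ 2 r q + 2 r ≤ 4 r q`, `0 ≤ E3 ≤ 4 r`;
   `|G0| ≤ E0 + 2·4rq + q·4r + q·4rq ≤ E0 + 16 r² ≤ 33 E0`, `|G1| ≤ 4rq + 2E0 + q·4rq + q·4r ≤ 2 E0 + 12 r² ≤ 26 E0`.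
   So `G0² + G1² ≤ 1800 E0²`, and `200 · 1800 ≤ 3 (r - 4)` because `r ≥ 10⁶`.
-/

set_option autoImplicit false

open scoped ContDiff

namespace Pool.Agent.H31.SYHD

open Pool.Agent.H34.SY

theorem Far_cs (p q s t : ℝ) : (p - q - s - t) ^ 2 ≤ 4 * (p ^ 2 + q ^ 2 + s ^ 2 + t ^ 2) := by
  nlinarith [sq_nonneg (p + q), sq_nonneg (p + s), sq_nonneg (p + t), sq_nonneg (q - s),
    sq_nonneg (q - t), sq_nonneg (s - t)]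

theorem Far_cs' (p q s t : ℝ) : (p + q + s - t) ^ 2 ≤ 4 * (p ^ 2 + q ^ 2 + s ^ 2 + t ^ 2) := by
  nlinarith [sq_nonneg (p - q), sq_nonneg (p - s), sq_nonneg (p + t), sq_nonneg (q - s),
    sq_nonneg (q + t), sq_nonneg (s + t)]

/-- The polynomial estimate. -/
theorem Far_key (l m a b c r E0 E1 E3 : ℝ) (hl0 : 0 ≤ l) (hl1 : l ≤ 1) (hm0 : 0 ≤ m)
    (hm1 : m ≤ 1) (hr : r = a ^ 2 + b ^ 2 + c ^ 2) (hr6 : 10 ^ 6 ≤ r)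
    (ha : a * (r - l ^ 2) + 2 * l * b * c = 0)
    (hE0 : E0 = (r - l ^ 2) ^ 2 + 4 * l ^ 2 * b ^ 2)
    (hE1 : E1 = 2 * l * (r - l ^ 2) * c - 4 * l ^ 2 * a * b)
    (hE3 : E3 = 4 * l ^ 2 * (a ^ 2 + c ^ 2)) :
    200 * ((l * E0 - m * a * E1 - b * E3 - c * E1) ^ 2
      + (l * E1 + m * a * E0 + b * E1 - c * E3) ^ 2)
    ≤ 3 * ((l ^ 2 + m ^ 2 * a ^ 2 + b ^ 2 + c ^ 2) * (E0 ^ 2 + 2 * E1 ^ 2 + E3 ^ 2)) := by
  have hll : l ^ 2 ≤ 1 := by nlinarith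
  have hll0 : 0 ≤ l ^ 2 := sq_nonneg l
  have hmm : m ^ 2 ≤ 1 := by nlinarith
  have hmm0 : 0 ≤ m ^ 2 := sq_nonneg m
  set w := r - l ^ 2 with hw
  have hw1 : r / 2 ≤ w := by linarith
  have hw2 : w ≤ r := by linarith
  have hr0 : 0 < r := by linarith
  have hbc : b ^ 2 + c ^ 2 ≤ r := by nlinarith [sq_nonneg a]
  have hww : r ^ 2 / 4 ≤ w ^ 2 := by nlinarith
  have hww2 : w ^ 2 ≤ r ^ 2 := by nlinarith
  -- a² ≤ 4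
  have ha2 : a ^ 2 ≤ 4 := by
    have e : a ^ 2 * w ^ 2 = l ^ 2 * (4 * b ^ 2 * c ^ 2) := by
      have : a * w = -(2 * l * b * c) := by linarith
      calc a ^ 2 * w ^ 2 = (a * w) ^ 2 := by ring
        _ = (-(2 * l * b * c)) ^ 2 := by rw [this]
        _ = l ^ 2 * (4 * b ^ 2 * c ^ 2) := by ring
    have e2 : 4 * b ^ 2 * c ^ 2 ≤ (b ^ 2 + c ^ 2) ^ 2 := by
      nlinarith [sq_nonneg (b ^ 2 - c ^ 2)]
    have e3 : (b ^ 2 + c ^ 2) ^ 2 ≤ r ^ 2 := by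
      apply pow_le_pow_left₀ (by positivity) hbc
    have e4 : 0 ≤ 4 * b ^ 2 * c ^ 2 := by positivity
    have e5 : a ^ 2 * w ^ 2 ≤ r ^ 2 := by
      rw [e]
      nlinarith
    have e6 : a ^ 2 * (r ^ 2 / 4) ≤ r ^ 2 := le_trans (mul_le_mul_of_nonneg_left hww (sq_nonneg a)) e5
    have e7 : 0 < r ^ 2 := by positivity
    by_contra hcon
    push Not at hcon
    nlinarith
  have ha20 : 0 ≤ a ^ 2 := sq_nonneg a
  -- E0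
  have hE0w : w ^ 2 ≤ E0 := by
    rw [hE0]
    have : 0 ≤ 4 * l ^ 2 * b ^ 2 := by positivity
    linarith
  have hE0sq : r ^ 4 / 16 ≤ E0 ^ 2 := by
    have h1 : r ^ 2 / 4 ≤ E0 := le_trans hww hE0w
    have h2 : (r ^ 2 / 4) ^ 2 ≤ E0 ^ 2 := pow_le_pow_left₀ (by positivity) h1 2
    calc r ^ 4 / 16 = (r ^ 2 / 4) ^ 2 := by ring
      _ ≤ _ := h2
  -- E1
  have hE1sq : E1 ^ 2 ≤ 8 * r ^ 3 + 128 * r := by
    have h1 : E1 ^ 2 ≤ 2 * ((2 * l * w * c) ^ 2 + (4 * l ^ 2 * a * b) ^ 2) := by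
      rw [hE1]
      nlinarith [sq_nonneg (2 * l * w * c + 4 * l ^ 2 * a * b)]
    have h2 : (2 * l * w * c) ^ 2 ≤ 4 * r ^ 3 := by
      have e : (2 * l * w * c) ^ 2 = 4 * (l ^ 2 * (w ^ 2 * c ^ 2)) := by ring
      have e1 : w ^ 2 * c ^ 2 ≤ r ^ 2 * r :=
        mul_le_mul hww2 (by nlinarith [sq_nonneg b]) (sq_nonneg c) (by positivity)
      have e2 : 0 ≤ w ^ 2 * c ^ 2 := by positivity
      have e3 : l ^ 2 * (w ^ 2 * c ^ 2) ≤ 1 * (r ^ 2 * r) :=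
        mul_le_mul hll e1 e2 (by norm_num)
      rw [e]
      nlinarith
    have h3 : (4 * l ^ 2 * a * b) ^ 2 ≤ 64 * r := by
      have e : (4 * l ^ 2 * a * b) ^ 2 = 16 * ((l ^ 2) ^ 2 * (a ^ 2 * b ^ 2)) := by ring
      have e1 : a ^ 2 * b ^ 2 ≤ 4 * r :=
        mul_le_mul ha2 (by nlinarith [sq_nonneg c]) (sq_nonneg b) (by norm_num)
      have e2 : 0 ≤ a ^ 2 * b ^ 2 := by positivity
      have e3 : (l ^ 2) ^ 2 ≤ 1 := by nlinarith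
      have e4 : (l ^ 2) ^ 2 * (a ^ 2 * b ^ 2) ≤ 1 * (4 * r) :=
        mul_le_mul e3 e1 e2 (by norm_num)
      rw [e]
      linarith
    linarith
  have hE1nn : 0 ≤ E1 ^ 2 := sq_nonneg _
  -- E3
  have hE3sq : E3 ^ 2 ≤ 16 * r ^ 2 := by
    have h0 : 0 ≤ E3 := by rw [hE3]; positivity
    have h1 : E3 ≤ 4 * r := by
      rw [hE3]
      have e1 : a ^ 2 + c ^ 2 ≤ r := by nlinarith [sq_nonneg b]
      have e2 : 0 ≤ a ^ 2 + c ^ 2 := by positivity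
      have e3 : l ^ 2 * (a ^ 2 + c ^ 2) ≤ 1 * r := mul_le_mul hll e1 e2 (by norm_num)
      linarith
    calc E3 ^ 2 ≤ (4 * r) ^ 2 := pow_le_pow_left₀ h0 h1 2
      _ = 16 * r ^ 2 := by ring
  have hE3nn : 0 ≤ E3 ^ 2 := sq_nonneg _
  have hE0nn : 0 ≤ E0 ^ 2 := sq_nonneg _
  -- upper bound
  have hup : (l * E0 - m * a * E1 - b * E3 - c * E1) ^ 2
      + (l * E1 + m * a * E0 + b * E1 - c * E3) ^ 2
      ≤ 20 * E0 ^ 2 + 4 * (5 + r) * E1 ^ 2 + 4 * r * E3 ^ 2 := by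
    have h1 := Far_cs (l * E0) (m * a * E1) (b * E3) (c * E1)
    have h2 := Far_cs' (l * E1) (m * a * E0) (b * E1) (c * E3)
    have e : 4 * ((l * E0) ^ 2 + (m * a * E1) ^ 2 + (b * E3) ^ 2 + (c * E1) ^ 2)
        + 4 * ((l * E1) ^ 2 + (m * a * E0) ^ 2 + (b * E1) ^ 2 + (c * E3) ^ 2)
        = 4 * (l ^ 2 + m ^ 2 * a ^ 2) * E0 ^ 2 + 4 * (l ^ 2 + m ^ 2 * a ^ 2 + (b ^ 2 + c ^ 2)) * E1 ^ 2
          + 4 * (b ^ 2 + c ^ 2) * E3 ^ 2 := by ring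
    have hma : m ^ 2 * a ^ 2 ≤ 1 * 4 := mul_le_mul hmm ha2 ha20 (by norm_num)
    have i1 : 4 * (l ^ 2 + m ^ 2 * a ^ 2) * E0 ^ 2 ≤ 20 * E0 ^ 2 :=
      mul_le_mul_of_nonneg_right (by linarith) hE0nn
    have i2 : 4 * (l ^ 2 + m ^ 2 * a ^ 2 + (b ^ 2 + c ^ 2)) * E1 ^ 2 ≤ 4 * (5 + r) * E1 ^ 2 :=
      mul_le_mul_of_nonneg_right (by linarith) hE1nn
    have i3 : 4 * (b ^ 2 + c ^ 2) * E3 ^ 2 ≤ 4 * r * E3 ^ 2 :=
      mul_le_mul_of_nonneg_right (by linarith) hE3nn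
    linarith
  -- lower bound
  have hlow : (r - 4) * E0 ^ 2
      ≤ (l ^ 2 + m ^ 2 * a ^ 2 + b ^ 2 + c ^ 2) * (E0 ^ 2 + 2 * E1 ^ 2 + E3 ^ 2) := by
    have j0 : 0 ≤ m ^ 2 * a ^ 2 := by positivity
    apply mul_le_mul (by linarith) (by linarith) hE0nn (by positivity)
  have b1 : 4 * (5 + r) * E1 ^ 2 ≤ 4 * (5 + r) * (8 * r ^ 3 + 128 * r) :=
    mul_le_mul_of_nonneg_left hE1sq (by linarith)
  have b2 : 4 * r * E3 ^ 2 ≤ 4 * r * (16 * r ^ 2) :=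
    mul_le_mul_of_nonneg_left hE3sq (by linarith)
  have r2 : 10 ^ 6 * r ≤ r ^ 2 := by nlinarith
  have r3 : 10 ^ 6 * r ^ 2 ≤ r ^ 3 := by nlinarith [sq_nonneg r]
  have r4 : 10 ^ 6 * r ^ 3 ≤ r ^ 4 := by nlinarith [pow_pos hr0 3]
  have r5 : 10 ^ 6 * r ^ 4 ≤ r * r ^ 4 := by nlinarith [pow_pos hr0 4]
  have b3 : 4 * (5 + r) * (8 * r ^ 3 + 128 * r) + 4 * r * (16 * r ^ 2) ≤ 66 * r ^ 4 := by
    have e : 4 * (5 + r) * (8 * r ^ 3 + 128 * r) + 4 * r * (16 * r ^ 2)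
        = 32 * r ^ 4 + 224 * r ^ 3 + 512 * r ^ 2 + 2560 * r := by ring
    rw [e]
    linarith
  have b4 : r * (r ^ 4 / 16) ≤ (3 * (r - 4) - 4000) * E0 ^ 2 :=
    mul_le_mul (by linarith) hE0sq (by positivity) (by linarith)
  nlinarith

theorem Far_nsq (g : V4) : nsq3 (nrm g) = nsq4 g ^ 2 := by
  simp only [nsq3, nrm, nsq4]
  ring

theorem Far_main (L : ℝ) (hL : 1000 ≤ L) (x : V3) (hx : L ^ 2 ≤ nsq3 x) (h : hC L x = 0) :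
    97 / 100 ≤ (nrm (hG L x)).1 ∧ |(nrm (hG L x)).2.1| ≤ 1 / 4 ∧
      |(nrm (hG L x)).2.2| ≤ 1 / 4 := by
  have hL1 : 1 ≤ L := by linarith
  have hd := Cfn_den_pos L hL1 x
  have hu := Gau_unit L hL1 x
  have hp := Gau_pos L hL1 x
  have hm0 : 0 ≤ hLam3 L x := Gau_cut_nonneg _ _ _
  have hm1 : hLam3 L x ≤ 1 := by
    unfold hLam3 cut
    linarith [Real.smoothTransition.nonneg
      ((x.2.1 ^ 2 + x.2.2 ^ 2 - 16 * L ^ 2) / (9 * L ^ 2))]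
  have hnum : x.1 * (nsq3 x - hLam L x ^ 2) + 2 * hLam L x * x.2.1 * x.2.2 = 0 := by
    have h' : (x.1 * (nsq3 x - hLam L x ^ 2) + 2 * hLam L x * x.2.1 * x.2.2)
        / (hLam L x ^ 2 + nsq3 x) = 0 := h
    exact (div_eq_zero_iff.1 h').resolve_right hd.ne'
  have hkey := Far_key (hLam L x) (hLam3 L x) x.1 x.2.1 x.2.2 (nsq3 x) (pE0 (hLam L x) x)
    (pE1 (hLam L x) x) (pE3 (hLam L x) x) (Cfn_lam_nonneg L x) (Cfn_lam_le_one L x) hm0 hm1 rfl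
    (by nlinarith) hnum rfl rfl rfl
  have hkey' : 200 * ((pG (hLam L x) (hLam3 L x) x).1 ^ 2
      + (pG (hLam L x) (hLam3 L x) x).2.1 ^ 2) ≤ 3 * nsq4 (pG (hLam L x) (hLam3 L x) x) := by
    have e : nsq4 (pG (hLam L x) (hLam3 L x) x)
      = (hLam L x ^ 2 + hLam3 L x ^ 2 * x.1 ^ 2 + x.2.1 ^ 2 + x.2.2 ^ 2)
        * (pE0 (hLam L x) x ^ 2 + 2 * pE1 (hLam L x) x ^ 2 + pE3 (hLam L x) x ^ 2) :=
      Gau_norm _ _ _ _ _ _ _ _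
    rw [e]
    exact hkey
  set G := pG (hLam L x) (hLam3 L x) x with hGdef
  set s := (Real.sqrt (nsq4 G))⁻¹ with hs
  have hsG : s ^ 2 * nsq4 G = 1 := by
    rw [hs, inv_pow, Real.sq_sqrt hp.le]
    exact inv_mul_cancel₀ hp.ne'
  have hg : hG L x = smul4 s G := rfl
  have g0 : (hG L x).1 = s * G.1 := rfl
  have g1 : (hG L x).2.1 = s * G.2.1 := rfl
  have hn1 : (nrm (hG L x)).1 = 1 - 2 * (s ^ 2 * (G.1 ^ 2 + G.2.1 ^ 2)) := by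
    have e1 : (nrm (hG L x)).1 = nsq4 (hG L x) - 2 * ((hG L x).1 ^ 2 + (hG L x).2.1 ^ 2) := by
      simp only [nrm, nsq4]
      ring
    rw [e1, hu, g0, g1]
    ring
  have hs2 : 0 ≤ s ^ 2 := sq_nonneg s
  have hq : s ^ 2 * (200 * (G.1 ^ 2 + G.2.1 ^ 2)) ≤ s ^ 2 * (3 * nsq4 G) :=
    mul_le_mul_of_nonneg_left hkey' hs2
  have hn1' : 97 / 100 ≤ (nrm (hG L x)).1 := by
    rw [hn1]
    nlinarith
  have hsum : (nrm (hG L x)).1 ^ 2 + (nrm (hG L x)).2.1 ^ 2 + (nrm (hG L x)).2.2 ^ 2 = 1 := by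
    have := Far_nsq (hG L x)
    rw [hu] at this
    simpa [nsq3] using this
  have h9 : (97 / 100 : ℝ) ^ 2 ≤ (nrm (hG L x)).1 ^ 2 := pow_le_pow_left₀ (by norm_num) hn1' 2
  refine ⟨hn1', ?_, ?_⟩
  · apply abs_le_of_sq_le_sq _ (by norm_num)
    nlinarith [sq_nonneg (nrm (hG L x)).2.2]
  · apply abs_le_of_sq_le_sq _ (by norm_num)
    nlinarith [sq_nonneg (nrm (hG L x)).2.1]

end Pool.Agent.H31.SYHD
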