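import Pool.Agent.H31.SYHD.GrdC

/-!
# HD row GrdG : curl of `hGa` on `|x| < L`

On the open set `nsq3 x < L²` (open, `nsq3` continuous) `hLam L = 1` (`Real.smoothTransition.zero_of_nonpos`), so `hGa L` agrees near `x`
with `(-2 (x₂²-x₃²)/s, x₃/s², -x₂/s²)`, `s = 1 + nsq3 x > 0`.  Partial derivatives (`ds/dx_i = 2 x_i`):
`∂₂ga₃ = -1/s² + 4x₂²/s³`, `∂₃ga₂ = 1/s² - 4x₃²/s³`, `∂₃ga₁ = 4x₃/s + 4x₃(x₂²-x₃²)/s²`, `∂₁ga₃ = 4x₁x₂/s³`,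
`∂₁ga₂ = -4x₁x₃/s³`, `∂₂ga₁ = -4x₂/s + 4x₂(x₂²-x₃²)/s²`.
(Use `Filter.EventuallyEq.fderiv_eq`, then e.g. `HasFDerivAt.prodMk`, or for each component
`fderiv f x v = deriv (fun t => f (x + t • v)) 0`, `DifferentiableAt.fderiv_prodMk`/`fderiv.fst`.)
Checked numerically.
-/

set_option autoImplicit false

open scoped ContDiff

namespace Pool.Agent.H31.SYHD

open Pool.Agent.H34.SY

open Filter Topology

/-- `ga` in the region `|x| < L`. -/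
noncomputable def GrdG_F (y : V3) : V3 :=
  (-2 * (y.2.1 ^ 2 - y.2.2 ^ 2) / (1 + nsq3 y), y.2.2 / (1 + nsq3 y) ^ 2,
    -y.2.1 / (1 + nsq3 y) ^ 2)

theorem GrdG_ev (L : ℝ) (x : V3) (hx : nsq3 x < L ^ 2) : hGa L =ᶠ[𝓝 x] GrdG_F := by
  filter_upwards [GrdC_open L x hx] with y hy
  have h0 := GrdC_L L y hy
  unfold hGa GrdG_F hLam
  rw [Gau_cut_one _ _ _ (by linarith) hy.le]
  simp only [one_mul]

theorem GrdG_diff (x : V3) : DifferentiableAt ℝ GrdG_F x := by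
  have h1 : ContDiff ℝ ∞ (fun a : V3 => a.1) := contDiff_fst
  have h2 : ContDiff ℝ ∞ (fun a : V3 => a.2.1) := contDiff_fst.comp contDiff_snd
  have h3 : ContDiff ℝ ∞ (fun a : V3 => a.2.2) := contDiff_snd.comp contDiff_snd
  have hn := Gau_nsq3_smooth
  have hs : ContDiff ℝ ∞ (fun x : V3 => 1 + nsq3 x) := contDiff_const.add hn
  have hs0 : ∀ x : V3, (1 + nsq3 x) ≠ 0 := fun x => by
    have := Cfn_nsq_nonneg x
    positivity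
  have hs1 : ∀ x : V3, (1 + nsq3 x) ^ 2 ≠ 0 := fun x => pow_ne_zero 2 (hs0 x)
  have hc : ContDiff ℝ ∞ GrdG_F := by
    unfold GrdG_F
    exact ((contDiff_const.mul ((h2.pow 2).sub (h3.pow 2))).div hs hs0).prodMk
      ((h3.div (hs.pow 2) hs1).prodMk (h2.neg.div (hs.pow 2) hs1))
  exact (hc.differentiable (by simp)) x

theorem GrdG_dir (x v : V3) : fderiv ℝ GrdG_F x v =
    ((-4 * (x.2.1 * v.2.1 - x.2.2 * v.2.2) * (1 + nsq3 x)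
        + 4 * (x.2.1 ^ 2 - x.2.2 ^ 2) * dot3 x v) / (1 + nsq3 x) ^ 2,
      (v.2.2 * (1 + nsq3 x) - 4 * x.2.2 * dot3 x v) / (1 + nsq3 x) ^ 3,
      (-v.2.1 * (1 + nsq3 x) + 4 * x.2.1 * dot3 x v) / (1 + nsq3 x) ^ 3) := by
  apply GrdC_line _ _ _ (GrdG_diff x)
  obtain ⟨a, b, c⟩ := x
  obtain ⟨v1, v2, v3⟩ := v
  have hA := GrdC_coord a v1
  have hB := GrdC_coord b v2
  have hC' := GrdC_coord c v3
  have hq1 : HasDerivAt (fun t : ℝ => 1 + ((a + t * v1) ^ 2 + (b + t * v2) ^ 2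
      + (c + t * v3) ^ 2)) (2 * a * v1 + 2 * b * v2 + 2 * c * v3) 0 := by
    refine ((((hA.pow 2).add (hB.pow 2)).add (hC'.pow 2)).const_add 1).congr_deriv ?_
    simp
  have hne : (1 : ℝ) + ((a + 0 * v1) ^ 2 + (b + 0 * v2) ^ 2 + (c + 0 * v3) ^ 2) ≠ 0 := by
    positivity
  have hne' : (1 : ℝ) + (a ^ 2 + b ^ 2 + c ^ 2) ≠ 0 := by positivity
  have hq2 : HasDerivAt (fun t : ℝ => (1 + ((a + t * v1) ^ 2 + (b + t * v2) ^ 2
      + (c + t * v3) ^ 2)) ^ 2) (2 * (1 + (a ^ 2 + b ^ 2 + c ^ 2))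
        * (2 * a * v1 + 2 * b * v2 + 2 * c * v3)) 0 := by
    refine (hq1.pow 2).congr_deriv ?_
    simp
  have hne2 : ((1 : ℝ) + ((a + 0 * v1) ^ 2 + (b + 0 * v2) ^ 2 + (c + 0 * v3) ^ 2)) ^ 2 ≠ 0 :=
    pow_ne_zero 2 hne
  have hp1 : HasDerivAt (fun t : ℝ => -2 * ((b + t * v2) ^ 2 - (c + t * v3) ^ 2))
      (-2 * (2 * b * v2 - 2 * c * v3)) 0 := by
    refine (((hB.pow 2).sub (hC'.pow 2)).const_mul (-2)).congr_deriv ?_
    simp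
  have k1 : HasDerivAt (fun t : ℝ => -2 * ((b + t * v2) ^ 2 - (c + t * v3) ^ 2)
      / (1 + ((a + t * v1) ^ 2 + (b + t * v2) ^ 2 + (c + t * v3) ^ 2)))
      ((-4 * (b * v2 - c * v3) * (1 + (a ^ 2 + b ^ 2 + c ^ 2))
        + 4 * (b ^ 2 - c ^ 2) * (a * v1 + b * v2 + c * v3)) / (1 + (a ^ 2 + b ^ 2 + c ^ 2)) ^ 2)
      0 := by
    refine (hp1.div hq1 hne).congr_deriv ?_
    simp only [zero_mul, add_zero]
    congr 1
    ring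
  have k2 : HasDerivAt (fun t : ℝ => (c + t * v3)
      / (1 + ((a + t * v1) ^ 2 + (b + t * v2) ^ 2 + (c + t * v3) ^ 2)) ^ 2)
      ((v3 * (1 + (a ^ 2 + b ^ 2 + c ^ 2)) - 4 * c * (a * v1 + b * v2 + c * v3))
        / (1 + (a ^ 2 + b ^ 2 + c ^ 2)) ^ 3) 0 := by
    refine (hC'.div hq2 hne2).congr_deriv ?_
    simp only [zero_mul, add_zero]
    field_simp
    ring
  have k3 : HasDerivAt (fun t : ℝ => -(b + t * v2)
      / (1 + ((a + t * v1) ^ 2 + (b + t * v2) ^ 2 + (c + t * v3) ^ 2)) ^ 2)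
      ((-v2 * (1 + (a ^ 2 + b ^ 2 + c ^ 2)) + 4 * b * (a * v1 + b * v2 + c * v3))
        / (1 + (a ^ 2 + b ^ 2 + c ^ 2)) ^ 3) 0 := by
    refine (hB.neg.div hq2 hne2).congr_deriv ?_
    simp only [zero_mul, add_zero, Pi.neg_apply]
    field_simp
    ring
  exact k1.prodMk (k2.prodMk k3)

theorem GrdG_curl (L : ℝ) (x : V3) (hx : nsq3 x < L ^ 2) :
    (1, 0, 0) + curl3 (hGa L) x =
      ((vV x).1 / (1 + nsq3 x) ^ 3, (vV x).2.1 / (1 + nsq3 x) ^ 3,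
        (vV x).2.2 / (1 + nsq3 x) ^ 3) := by
  have h := (GrdG_ev L x hx).fderiv_eq (𝕜 := ℝ)
  have h0 := Cfn_nsq_nonneg x
  have hne : (1 : ℝ) + nsq3 x ≠ 0 := by positivity
  unfold curl3
  rw [h, GrdG_dir, GrdG_dir, GrdG_dir]
  obtain ⟨a, b, c⟩ := x
  refine Prod.ext ?_ (Prod.ext ?_ ?_)
  · show 1 + ((-1 * (1 + nsq3 (a, b, c)) + 4 * b * dot3 (a, b, c) (0, 1, 0))
        / (1 + nsq3 (a, b, c)) ^ 3
      - (1 * (1 + nsq3 (a, b, c)) - 4 * c * dot3 (a, b, c) (0, 0, 1))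
        / (1 + nsq3 (a, b, c)) ^ 3)
      = ((1 + nsq3 (a, b, c)) ^ 3 - 2 * (1 + nsq3 (a, b, c)) + 4 * (b ^ 2 + c ^ 2))
        / (1 + nsq3 (a, b, c)) ^ 3
    simp only [dot3]
    set r := nsq3 (a, b, c)
    field_simp
    ring
  · show 0 + ((-4 * (b * 0 - c * 1) * (1 + nsq3 (a, b, c))
        + 4 * (b ^ 2 - c ^ 2) * dot3 (a, b, c) (0, 0, 1)) / (1 + nsq3 (a, b, c)) ^ 2
      - (-0 * (1 + nsq3 (a, b, c)) + 4 * b * dot3 (a, b, c) (1, 0, 0))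
        / (1 + nsq3 (a, b, c)) ^ 3)
      = (4 * c * (1 + nsq3 (a, b, c)) ^ 2 + 4 * c * (b ^ 2 - c ^ 2) * (1 + nsq3 (a, b, c))
      - 4 * a * b) / (1 + nsq3 (a, b, c)) ^ 3
    simp only [dot3]
    set r := nsq3 (a, b, c)
    field_simp
    ring
  · show 0 + ((0 * (1 + nsq3 (a, b, c)) - 4 * c * dot3 (a, b, c) (1, 0, 0))
        / (1 + nsq3 (a, b, c)) ^ 3
      - (-4 * (b * 1 - c * 0) * (1 + nsq3 (a, b, c))
        + 4 * (b ^ 2 - c ^ 2) * dot3 (a, b, c) (0, 1, 0)) / (1 + nsq3 (a, b, c)) ^ 2)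
      = (4 * b * (1 + nsq3 (a, b, c)) ^ 2 - 4 * b * (b ^ 2 - c ^ 2) * (1 + nsq3 (a, b, c))
      - 4 * a * c) / (1 + nsq3 (a, b, c)) ^ 3
    simp only [dot3]
    set r := nsq3 (a, b, c)
    field_simp
    ring

end Pool.Agent.H31.SYHD
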