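import Pool.Agent.H31.SYHD.Cfn

/-!
# HD row Scl : `hC L - x₁` and `hGa L` have derivatives `O(1/L)` on `L ≤ |x|`

Scaling and compactness.  For `y : V3`, `e : ℝ` put `lam y = cut 1 3 (nsq3 y)`, `k y = |y|² = nsq3 y` and
`f0 (y,e) = 2 lam (y₂ y₃ - e lam y₁) / (e² lam² + k)`, `f1 (y,e) = lam (-2 (y₂² - y₃²)/(e² + k))`,
`f2 (y,e) = e³ lam y₃/(e² + k)²`, `f3 (y,e) = -e³ lam y₂/(e² + k)²`.
1. each `f_i` is smooth on the open set `{(y,e) | 0 < nsq3 y}` of `V3 × ℝ`, and vanishes for `4 ≤ nsq3 y`.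
2. for `L ≥ 1`, `nsq3 x > 0`: `hLam L x = lam (x/L)` (`(r - L²)/(3L²) = (r/L² - 1)/3`) and
   `hC L x - x.1 = f0 (x/L, 1/L)`, `(hGa L x).1 = f1 (x/L, 1/L)`, `.2.1 = f2 (..)`, `.2.2 = f3 (..)` (field_simp; ring).
3. General lemma: `f : V3 × ℝ → ℝ` smooth on `{0 < nsq3 y}`, zero for `4 ≤ nsq3 y`: there is `M` with
   `|fderiv ℝ (fun x => f (x/L, 1/L)) x v| ≤ M/L` for all `L ≥ 1`, `nsq3 x ≥ L²`, `v` a basis vector: chain rule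
   (`x ↦ ((1/L) • x, 1/L)` is affine), the derivative is `(1/L) fderiv f (x/L,1/L) (v,0)`; for `4 L² < nsq3 x` the function is
   locally `0`; for `L² ≤ nsq3 x ≤ 4 L²` the point `(x/L, 1/L)` is in the compact set `{1 ≤ nsq3 y ≤ 4} × [0,1]`, on which
   `‖fderiv f‖` is continuous, hence bounded (`IsCompact.exists_bound_of_continuousOn`).
   (The set `{1 ≤ nsq3 y ≤ 4}` is closed and bounded in `V3 = ℝ × ℝ × ℝ`; the norm of `V3` is the sup norm; `‖v‖ = 1`.)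
4. `fderiv (hC L) x v = v.1 + fderiv (hC L - x.1) x v`, `hGa` componentwise.
-/

set_option autoImplicit false

open scoped ContDiff

namespace Pool.Agent.H31.SYHD

open Pool.Agent.H34.SY

open Filter Topology

/-- The open set of smoothness. -/
def Scl_U : Set (V3 × ℝ) := {p | 0 < nsq3 p.1}

theorem Scl_ncont : Continuous (fun p : V3 × ℝ => nsq3 p.1) :=
  Gau_nsq3_smooth.continuous.comp continuous_fst

theorem Scl_U_open : IsOpen Scl_U := isOpen_lt continuous_const Scl_ncont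

/-- The compact set. -/
def Scl_K : Set (V3 × ℝ) := {p | (1 ≤ nsq3 p.1 ∧ nsq3 p.1 ≤ 4) ∧ (0 ≤ p.2 ∧ p.2 ≤ 1)}

theorem Scl_K_compact : IsCompact Scl_K := by
  have hc : IsCompact ((Metric.closedBall (0 : V3) 2) ×ˢ (Set.Icc (0 : ℝ) 1)) :=
    (isCompact_closedBall _ _).prod isCompact_Icc
  have hcl : IsClosed Scl_K := by
    apply IsClosed.inter
    · exact (isClosed_le continuous_const Scl_ncont).inter (isClosed_le Scl_ncont continuous_const)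
    · exact (isClosed_le continuous_const continuous_snd).inter
        (isClosed_le continuous_snd continuous_const)
  apply hc.of_isClosed_subset hcl
  rintro ⟨⟨a, b, c⟩, e⟩ ⟨⟨h1, h2⟩, h3, h4⟩
  refine ⟨?_, h3, h4⟩
  have h2' : a ^ 2 + b ^ 2 + c ^ 2 ≤ 4 := h2
  rw [mem_closedBall_zero_iff, Prod.norm_def, Prod.norm_def]
  simp only [Real.norm_eq_abs, max_le_iff]
  refine ⟨?_, ?_, ?_⟩ <;> apply abs_le_of_sq_le_sq _ (by norm_num) <;>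
    nlinarith [sq_nonneg a, sq_nonneg b, sq_nonneg c]

theorem Scl_nsq_smul (r : ℝ) (x : V3) : nsq3 (r • x) = r ^ 2 * nsq3 x := by
  simp only [nsq3, Prod.smul_fst, Prod.smul_snd, smul_eq_mul]
  ring

theorem Scl_gen (f : V3 × ℝ → ℝ) (hf : ContDiffOn ℝ ∞ f Scl_U)
    (h0 : ∀ p : V3 × ℝ, 4 ≤ nsq3 p.1 → f p = 0) :
    ∃ M : ℝ, 0 < M ∧ ∀ L : ℝ, 1 ≤ L → ∀ x : V3, L ^ 2 ≤ nsq3 x → ∀ v : V3, ‖v‖ ≤ 1 →
      DifferentiableAt ℝ (fun y : V3 => f (L⁻¹ • y, L⁻¹)) x ∧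
      |fderiv ℝ (fun y : V3 => f (L⁻¹ • y, L⁻¹)) x v| ≤ M / L := by
  have hcont : ContinuousOn (fderiv ℝ f) Scl_U :=
    hf.continuousOn_fderiv_of_isOpen Scl_U_open (by simp)
  have hKU : Scl_K ⊆ Scl_U := fun p hp => lt_of_lt_of_le one_pos hp.1.1
  obtain ⟨C, hC⟩ := Scl_K_compact.exists_bound_of_continuousOn (hcont.mono hKU)
  refine ⟨max C 1, by positivity, ?_⟩
  intro L hL x hx v hv
  have hL0 : 0 < L := by linarith
  have hi0 : 0 < L⁻¹ := inv_pos.2 hL0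
  have hi1 : L⁻¹ ≤ 1 := inv_le_one_of_one_le₀ hL
  set p : V3 × ℝ := (L⁻¹ • x, L⁻¹) with hp
  have hpn : nsq3 p.1 = nsq3 x / L ^ 2 := by
    show nsq3 (L⁻¹ • x) = _
    rw [Scl_nsq_smul, inv_pow]
    field_simp
  have hp1 : 1 ≤ nsq3 p.1 := by
    rw [hpn, le_div_iff₀ (by positivity)]
    linarith
  have hpU : p ∈ Scl_U := lt_of_lt_of_le one_pos hp1
  have hfd : DifferentiableAt ℝ f p :=
    ((hf.contDiffAt (Scl_U_open.mem_nhds hpU)).differentiableAt (by simp))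
  have hb : ‖fderiv ℝ f p‖ ≤ max C 1 := by
    rcases le_or_gt (nsq3 p.1) 4 with h4 | h4
    · exact le_trans (hC p ⟨⟨hp1, h4⟩, hi0.le, hi1⟩) (le_max_left _ _)
    · have hev : f =ᶠ[𝓝 p] (fun _ => (0 : ℝ)) := by
        have : ∀ᶠ q in 𝓝 p, 4 < nsq3 q.1 :=
          (Scl_ncont.tendsto p).eventually (lt_mem_nhds h4)
        filter_upwards [this] with q hq
        exact h0 q hq.le
      rw [hev.fderiv_eq]
      simp
  -- the affine map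
  let A' : V3 →L[ℝ] V3 × ℝ := (L⁻¹ • ContinuousLinearMap.id ℝ V3).prod 0
  have hA : HasFDerivAt (fun y : V3 => ((L⁻¹ • y, L⁻¹) : V3 × ℝ)) A' x :=
    (HasFDerivAt.const_smul (hasFDerivAt_id x) L⁻¹).prodMk (hasFDerivAt_const _ _)
  have hcomp : HasFDerivAt (fun y : V3 => f (L⁻¹ • y, L⁻¹)) ((fderiv ℝ f p).comp A') x :=
    HasFDerivAt.comp x hfd.hasFDerivAt hA
  refine ⟨hcomp.differentiableAt, ?_⟩
  rw [hcomp.fderiv]
  have e : ((fderiv ℝ f p).comp A') v = fderiv ℝ f p (L⁻¹ • v, 0) := rfl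
  rw [e, ← Real.norm_eq_abs]
  have hn : ‖((L⁻¹ • v, 0) : V3 × ℝ)‖ ≤ L⁻¹ := by
    rw [Prod.norm_def]
    simp only [norm_zero, norm_smul, Real.norm_eq_abs, abs_of_pos hi0]
    rw [max_le_iff]
    exact ⟨by nlinarith, hi0.le⟩
  calc ‖fderiv ℝ f p (L⁻¹ • v, 0)‖ ≤ ‖fderiv ℝ f p‖ * ‖((L⁻¹ • v, 0) : V3 × ℝ)‖ :=
        ContinuousLinearMap.le_opNorm _ _
    _ ≤ max C 1 * L⁻¹ := mul_le_mul hb hn (norm_nonneg _) (by positivity)
    _ = max C 1 / L := by rw [div_eq_mul_inv]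

/-- `lam`. -/
noncomputable def Scl_lam (p : V3 × ℝ) : ℝ := cut 1 3 (nsq3 p.1)

noncomputable def Scl_f0 (p : V3 × ℝ) : ℝ :=
  2 * Scl_lam p * (p.1.2.1 * p.1.2.2 - p.2 * Scl_lam p * p.1.1)
    / (p.2 ^ 2 * Scl_lam p ^ 2 + nsq3 p.1)

noncomputable def Scl_f1 (p : V3 × ℝ) : ℝ :=
  Scl_lam p * (-2 * (p.1.2.1 ^ 2 - p.1.2.2 ^ 2) / (p.2 ^ 2 + nsq3 p.1))

noncomputable def Scl_f2 (p : V3 × ℝ) : ℝ :=
  p.2 ^ 3 * Scl_lam p * p.1.2.2 / (p.2 ^ 2 + nsq3 p.1) ^ 2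

noncomputable def Scl_f3 (p : V3 × ℝ) : ℝ :=
  -(p.2 ^ 3 * Scl_lam p * p.1.2.1) / (p.2 ^ 2 + nsq3 p.1) ^ 2

theorem Scl_smooth0 : ContDiffOn ℝ ∞ Scl_f0 Scl_U ∧ ContDiffOn ℝ ∞ Scl_f1 Scl_U ∧
    ContDiffOn ℝ ∞ Scl_f2 Scl_U ∧ ContDiffOn ℝ ∞ Scl_f3 Scl_U := by
  have h1 : ContDiff ℝ ∞ (fun a : V3 × ℝ => a.1.1) := contDiff_fst.comp contDiff_fst
  have h2 : ContDiff ℝ ∞ (fun a : V3 × ℝ => a.1.2.1) :=
    contDiff_fst.comp (contDiff_snd.comp contDiff_fst)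
  have h3 : ContDiff ℝ ∞ (fun a : V3 × ℝ => a.1.2.2) :=
    contDiff_snd.comp (contDiff_snd.comp contDiff_fst)
  have he : ContDiff ℝ ∞ (fun a : V3 × ℝ => a.2) := contDiff_snd
  have hn : ContDiff ℝ ∞ (fun a : V3 × ℝ => nsq3 a.1) := Gau_nsq3_smooth.comp contDiff_fst
  have hl : ContDiff ℝ ∞ Scl_lam := (Gau_cut_smooth _ _).comp hn
  have hU : ∀ p ∈ Scl_U, 0 < nsq3 p.1 := fun p hp => hp
  have d0 : ∀ p ∈ Scl_U, p.2 ^ 2 * Scl_lam p ^ 2 + nsq3 p.1 ≠ 0 := fun p hp => by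
    have := hU p hp
    positivity
  have d1 : ∀ p ∈ Scl_U, p.2 ^ 2 + nsq3 p.1 ≠ 0 := fun p hp => by
    have := hU p hp
    positivity
  have d2 : ∀ p ∈ Scl_U, (p.2 ^ 2 + nsq3 p.1) ^ 2 ≠ 0 := fun p hp => pow_ne_zero 2 (d1 p hp)
  refine ⟨?_, ?_, ?_, ?_⟩
  · unfold Scl_f0
    exact ((contDiff_const.mul hl).mul ((h2.mul h3).sub ((he.mul hl).mul h1))).contDiffOn.div
      (((he.pow 2).mul (hl.pow 2)).add hn).contDiffOn d0
  · unfold Scl_f1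
    exact hl.contDiffOn.mul ((contDiff_const.mul ((h2.pow 2).sub (h3.pow 2))).contDiffOn.div
      ((he.pow 2).add hn).contDiffOn d1)
  · unfold Scl_f2
    exact (((he.pow 3).mul hl).mul h3).contDiffOn.div (((he.pow 2).add hn).pow 2).contDiffOn d2
  · unfold Scl_f3
    exact (((he.pow 3).mul hl).mul h2).neg.contDiffOn.div
      (((he.pow 2).add hn).pow 2).contDiffOn d2

theorem Scl_lam_zero (p : V3 × ℝ) (h : 4 ≤ nsq3 p.1) : Scl_lam p = 0 :=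
  Gau_cut_zero _ _ _ (by norm_num) (by linarith)

theorem Scl_lam_eq (L : ℝ) (hL : 1 ≤ L) (x : V3) : Scl_lam (L⁻¹ • x, L⁻¹) = hLam L x := by
  have hL0 : L ≠ 0 := by positivity
  unfold Scl_lam hLam cut
  simp only [Scl_nsq_smul]
  congr 2
  field_simp

theorem Scl_eq0 (L : ℝ) (hL : 1 ≤ L) (x : V3) (hx : 0 < nsq3 x) :
    hC L x = x.1 + Scl_f0 (L⁻¹ • x, L⁻¹) := by
  have hL0 : L ≠ 0 := by positivity
  have hd := (Cfn_den_pos L hL x).ne'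
  unfold Scl_f0
  rw [Scl_lam_eq L hL x, Scl_nsq_smul]
  unfold hC
  obtain ⟨a, b, c⟩ := x
  simp only [Prod.smul_fst, Prod.smul_snd, smul_eq_mul]
  set l := hLam L (a, b, c)
  set r := nsq3 (a, b, c) with hr
  have hd2 : L⁻¹ ^ 2 * l ^ 2 + L⁻¹ ^ 2 * r ≠ 0 := by
    rw [← mul_add]
    exact mul_ne_zero (pow_ne_zero 2 (inv_ne_zero hL0)) hd
  rw [div_eq_iff hd, add_mul, div_mul_eq_mul_div]
  have e : 2 * l * (L⁻¹ * b * (L⁻¹ * c) - L⁻¹ * l * (L⁻¹ * a)) * (l ^ 2 + r)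
      / (L⁻¹ ^ 2 * l ^ 2 + L⁻¹ ^ 2 * r) = 2 * l * (b * c - l * a) := by
    rw [div_eq_iff hd2]
    ring
  rw [e]
  ring

theorem Scl_eq123 (L : ℝ) (hL : 1 ≤ L) (x : V3) (hx : 0 < nsq3 x) :
    (hGa L x).1 = Scl_f1 (L⁻¹ • x, L⁻¹) ∧ (hGa L x).2.1 = Scl_f2 (L⁻¹ • x, L⁻¹) ∧
    (hGa L x).2.2 = Scl_f3 (L⁻¹ • x, L⁻¹) := by
  have hL0 : L ≠ 0 := by positivity
  unfold Scl_f1 Scl_f2 Scl_f3
  rw [Scl_lam_eq L hL x, Scl_nsq_smul]
  unfold hGa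
  obtain ⟨a, b, c⟩ := x
  simp only [Prod.smul_fst, Prod.smul_snd, smul_eq_mul]
  set l := hLam L (a, b, c)
  set r := nsq3 (a, b, c) with hr
  have hd : (1 : ℝ) + r ≠ 0 := by positivity
  have hd2 : L⁻¹ ^ 2 + L⁻¹ ^ 2 * r ≠ 0 := by
    have : L⁻¹ ^ 2 + L⁻¹ ^ 2 * r = L⁻¹ ^ 2 * (1 + r) := by ring
    rw [this]
    exact mul_ne_zero (pow_ne_zero 2 (inv_ne_zero hL0)) hd
  have hd3 := pow_ne_zero 2 hd
  have hd4 := pow_ne_zero 2 hd2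
  refine ⟨?_, ?_, ?_⟩
  · rw [mul_div_assoc', mul_div_assoc', div_eq_div_iff hd hd2]
    ring
  · rw [mul_div_assoc', div_eq_div_iff hd3 hd4]
    ring
  · rw [mul_div_assoc', div_eq_div_iff hd3 hd4]
    ring

theorem Scl_basis (v : V3) (hv : v = (1, 0, 0) ∨ v = (0, 1, 0) ∨ v = (0, 0, 1)) : ‖v‖ ≤ 1 := by
  rcases hv with h | h | h <;> rw [h] <;> simp [Prod.norm_def]

theorem Scl_evpos (x : V3) (hx : 0 < nsq3 x) : ∀ᶠ y in 𝓝 x, 0 < nsq3 y :=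
  (Gau_nsq3_smooth.continuous.tendsto x).eventually (lt_mem_nhds hx)

theorem Scl_main : ∃ M : ℝ, 0 < M ∧ ∀ L : ℝ, 1 ≤ L → ∀ x : V3, L ^ 2 ≤ nsq3 x → ∀ v : V3,
    (v = (1, 0, 0) ∨ v = (0, 1, 0) ∨ v = (0, 0, 1)) →
      |fderiv ℝ (hC L) x v - v.1| ≤ M / L ∧ |(fderiv ℝ (hGa L) x v).1| ≤ M / L ∧
      |(fderiv ℝ (hGa L) x v).2.1| ≤ M / L ∧ |(fderiv ℝ (hGa L) x v).2.2| ≤ M / L := by
  obtain ⟨s0, s1, s2, s3⟩ := Scl_smooth0
  obtain ⟨M0, p0, k0⟩ := Scl_gen Scl_f0 s0 (fun p hp => by simp [Scl_f0, Scl_lam_zero p hp])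
  obtain ⟨M1, p1, k1⟩ := Scl_gen Scl_f1 s1 (fun p hp => by simp [Scl_f1, Scl_lam_zero p hp])
  obtain ⟨M2, p2, k2⟩ := Scl_gen Scl_f2 s2 (fun p hp => by simp [Scl_f2, Scl_lam_zero p hp])
  obtain ⟨M3, p3, k3⟩ := Scl_gen Scl_f3 s3 (fun p hp => by simp [Scl_f3, Scl_lam_zero p hp])
  refine ⟨M0 + M1 + M2 + M3, by positivity, ?_⟩
  intro L hL x hx v hv
  have hv1 := Scl_basis v hv
  have hL0 : 0 < L := by linarith
  have hx0 : 0 < nsq3 x := lt_of_lt_of_le (by positivity) hx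
  obtain ⟨d0, b0⟩ := k0 L hL x hx v hv1
  obtain ⟨d1, b1⟩ := k1 L hL x hx v hv1
  obtain ⟨d2, b2⟩ := k2 L hL x hx v hv1
  obtain ⟨d3, b3⟩ := k3 L hL x hx v hv1
  have hle : ∀ M, (M = M0 ∨ M = M1 ∨ M = M2 ∨ M = M3) → M / L ≤ (M0 + M1 + M2 + M3) / L := by
    intro M hM
    apply div_le_div_of_nonneg_right _ hL0.le
    rcases hM with h | h | h | h <;> rw [h] <;> linarith
  have hga := (Cfn_main L hL).2.1
  have hgd : DifferentiableAt ℝ (hGa L) x := (hga.differentiable (by simp)) x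
  have c1 : (fderiv ℝ (hGa L) x v).1 = fderiv ℝ (fun y => (hGa L y).1) x v := by
    have := hgd.hasFDerivAt.fst
    rw [this.fderiv]
    rfl
  have c2 : (fderiv ℝ (hGa L) x v).2.1 = fderiv ℝ (fun y => (hGa L y).2.1) x v := by
    have := hgd.hasFDerivAt.snd.fst
    rw [this.fderiv]
    rfl
  have c3 : (fderiv ℝ (hGa L) x v).2.2 = fderiv ℝ (fun y => (hGa L y).2.2) x v := by
    have := hgd.hasFDerivAt.snd.snd
    rw [this.fderiv]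
    rfl
  have v0 : hC L =ᶠ[𝓝 x] (fun y => y.1 + Scl_f0 (L⁻¹ • y, L⁻¹)) := by
    filter_upwards [Scl_evpos x hx0] with y hy
    exact Scl_eq0 L hL y hy
  have v1 : (fun y => (hGa L y).1) =ᶠ[𝓝 x] (fun y => Scl_f1 (L⁻¹ • y, L⁻¹)) := by
    filter_upwards [Scl_evpos x hx0] with y hy
    exact (Scl_eq123 L hL y hy).1
  have v2 : (fun y => (hGa L y).2.1) =ᶠ[𝓝 x] (fun y => Scl_f2 (L⁻¹ • y, L⁻¹)) := by
    filter_upwards [Scl_evpos x hx0] with y hy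
    exact (Scl_eq123 L hL y hy).2.1
  have v3 : (fun y => (hGa L y).2.2) =ᶠ[𝓝 x] (fun y => Scl_f3 (L⁻¹ • y, L⁻¹)) := by
    filter_upwards [Scl_evpos x hx0] with y hy
    exact (Scl_eq123 L hL y hy).2.2
  refine ⟨?_, ?_, ?_, ?_⟩
  · have e : fderiv ℝ (hC L) x v = v.1 + fderiv ℝ (fun y : V3 => Scl_f0 (L⁻¹ • y, L⁻¹)) x v := by
      have hsum : HasFDerivAt (fun y : V3 => y.1 + Scl_f0 (L⁻¹ • y, L⁻¹))
          (ContinuousLinearMap.fst ℝ ℝ (ℝ × ℝ) +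
            fderiv ℝ (fun y : V3 => Scl_f0 (L⁻¹ • y, L⁻¹)) x) x :=
        hasFDerivAt_fst.add d0.hasFDerivAt
      rw [v0.fderiv_eq, hsum.fderiv]
      rfl
    rw [e, add_sub_cancel_left]
    exact le_trans b0 (hle _ (Or.inl rfl))
  · rw [c1, v1.fderiv_eq]
    exact le_trans b1 (hle _ (Or.inr (Or.inl rfl)))
  · rw [c2, v2.fderiv_eq]
    exact le_trans b2 (hle _ (Or.inr (Or.inr (Or.inl rfl))))
  · rw [c3, v3.fderiv_eq]
    exact le_trans b3 (hle _ (Or.inr (Or.inr (Or.inr rfl))))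

end Pool.Agent.H31.SYHD
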