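import Pool.Agent.H31.SYHD.AlgA
import Pool.Agent.H31.SYHD.AlgB
import Pool.Agent.H31.SYHD.GrdG
import Pool.Agent.H31.SYHD.Scl
import Pool.Agent.H31.SYHD.Far
import Pool.Agent.H34.SY.Spec

/-!
# HD : the explicit handle exists
-/

set_option autoImplicit false

open scoped ContDiff

namespace Pool.Agent.H31.SYHD

open Pool.Agent.H34.SY

theorem Fin_nrm_smul (s : ℝ) (g : V4) : nrm (smul4 s g) =
    (s ^ 2 * (nrm g).1, s ^ 2 * (nrm g).2.1, s ^ 2 * (nrm g).2.2) := by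
  simp only [nrm, smul4]
  refine Prod.ext ?_ (Prod.ext ?_ ?_) <;> simp only <;> ring

/-- The elementary inequality far out. -/
theorem Fin_out (V1 V2 V3' N1 N2 N3 n1 n2 n3 : ℝ) (hV1 : |V1 - 1| ≤ 1 / 20)
    (hV2 : |V2| ≤ 1 / 20) (hV3 : |V3'| ≤ 1 / 20) (hN1 : |N1 - 1| ≤ 1 / 20)
    (hN2 : |N2| ≤ 1 / 20) (hN3 : |N3| ≤ 1 / 20) (h1 : 97 / 100 ≤ n1) (h2 : |n2| ≤ 1 / 4)
    (h3 : |n3| ≤ 1 / 4) :
    0 < V1 * n1 + V2 * n2 + V3' * n3 ∧
    ((V1 - N1) ^ 2 + (V2 - N2) ^ 2 + (V3' - N3) ^ 2)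
      - ((V1 - N1) * n1 + (V2 - N2) * n2 + (V3' - N3) * n3) ^ 2
      < 4 * (V1 * n1 + V2 * n2 + V3' * n3) * (N1 * n1 + N2 * n2 + N3 * n3) := by
  have aux : ∀ a b : ℝ, |a| ≤ 1 / 20 → |b| ≤ 1 / 4 → -(1 / 80) ≤ a * b := by
    intro a b ha hb
    have h : |a * b| ≤ 1 / 20 * (1 / 4) := by
      rw [abs_mul]
      exact mul_le_mul ha hb (abs_nonneg b) (by norm_num)
    have := (abs_le.1 h).1
    linarith
  have a1 := abs_le.1 hV1
  have a2 := abs_le.1 hN1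
  have b1 : 9 / 10 ≤ V1 * n1 := by nlinarith [a1.1]
  have b2 : 9 / 10 ≤ N1 * n1 := by nlinarith [a2.1]
  have c1 := aux V2 n2 hV2 h2
  have c2 := aux V3' n3 hV3 h3
  have c3 := aux N2 n2 hN2 h2
  have c4 := aux N3 n3 hN3 h3
  have P : 4 / 5 ≤ V1 * n1 + V2 * n2 + V3' * n3 := by linarith
  have Q : 4 / 5 ≤ N1 * n1 + N2 * n2 + N3 * n3 := by linarith
  have sq : ∀ t : ℝ, |t| ≤ 1 / 10 → t ^ 2 ≤ 1 / 100 := by
    intro t ht
    have := abs_le.1 ht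
    nlinarith
  have d1 : (V1 - N1) ^ 2 ≤ 1 / 100 := by
    apply sq
    rw [abs_le]
    constructor <;> linarith [a1.1, a1.2, a2.1, a2.2]
  have a3 := abs_le.1 hV2
  have a4 := abs_le.1 hN2
  have d2 : (V2 - N2) ^ 2 ≤ 1 / 100 := by
    apply sq
    rw [abs_le]
    constructor <;> linarith [a3.1, a3.2, a4.1, a4.2]
  have a5 := abs_le.1 hV3
  have a6 := abs_le.1 hN3
  have d3 : (V3' - N3) ^ 2 ≤ 1 / 100 := by
    apply sq
    rw [abs_le]
    constructor <;> linarith [a5.1, a5.2, a6.1, a6.2]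
  refine ⟨by linarith, ?_⟩
  have e1 : 4 / 5 * (4 / 5) ≤ (V1 * n1 + V2 * n2 + V3' * n3) * (N1 * n1 + N2 * n2 + N3 * n3) :=
    mul_le_mul P Q (by norm_num) (by linarith)
  nlinarith [sq_nonneg ((V1 - N1) * n1 + (V2 - N2) * n2 + (V3' - N3) * n3)]

theorem Fin_tame_out (M L : ℝ) (hL : 1000 ≤ L) (hML : M / L ≤ 1 / 40)
    (hM : ∀ x : V3, L ^ 2 ≤ nsq3 x → ∀ v : V3,
      (v = (1, 0, 0) ∨ v = (0, 1, 0) ∨ v = (0, 0, 1)) →
      |fderiv ℝ (hC L) x v - v.1| ≤ M / L ∧ |(fderiv ℝ (hGa L) x v).1| ≤ M / L ∧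
      |(fderiv ℝ (hGa L) x v).2.1| ≤ M / L ∧ |(fderiv ℝ (hGa L) x v).2.2| ≤ M / L)
    (x : V3) (hx : L ^ 2 ≤ nsq3 x) (h : hC L x = 0) :
    0 < dot3 ((1, 0, 0) + curl3 (hGa L) x) (nrm (hG L x)) ∧
    nsq3 ((1, 0, 0) + curl3 (hGa L) x - grad3 (hC L) x)
      - (dot3 ((1, 0, 0) + curl3 (hGa L) x - grad3 (hC L) x) (nrm (hG L x))) ^ 2
    < 4 * dot3 ((1, 0, 0) + curl3 (hGa L) x) (nrm (hG L x)) * dot3 (grad3 (hC L) x)
        (nrm (hG L x)) := by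
  obtain ⟨f1, f2, f3⟩ := Far_main L hL x hx h
  obtain ⟨p1, p2, p3, p4⟩ := hM x hx (1, 0, 0) (Or.inl rfl)
  obtain ⟨q1, q2, q3, q4⟩ := hM x hx (0, 1, 0) (Or.inr (Or.inl rfl))
  obtain ⟨r1, r2, r3, r4⟩ := hM x hx (0, 0, 1) (Or.inr (Or.inr rfl))
  have sub : ∀ a b : ℝ, |a| ≤ M / L → |b| ≤ M / L → |a - b| ≤ 1 / 20 := by
    intro a b ha hb
    have h1 := abs_le.1 ha
    have h2 := abs_le.1 hb
    rw [abs_le]
    constructor <;> linarith [h1.1, h1.2, h2.1, h2.2]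
  have s1 := sub _ _ q4 r3
  have s2 := sub _ _ r2 p4
  have s3 := sub _ _ p3 q2
  have t1 : |1 + ((fderiv ℝ (hGa L) x (0, 1, 0)).2.2 - (fderiv ℝ (hGa L) x (0, 0, 1)).2.1) - 1|
      ≤ 1 / 20 := by rwa [add_sub_cancel_left]
  have t2 : |0 + ((fderiv ℝ (hGa L) x (0, 0, 1)).1 - (fderiv ℝ (hGa L) x (1, 0, 0)).2.2)|
      ≤ 1 / 20 := by rwa [zero_add]
  have t3 : |0 + ((fderiv ℝ (hGa L) x (1, 0, 0)).2.1 - (fderiv ℝ (hGa L) x (0, 1, 0)).1)|
      ≤ 1 / 20 := by rwa [zero_add]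
  have n1 : |fderiv ℝ (hC L) x (1, 0, 0) - 1| ≤ 1 / 20 := le_trans p1 (by linarith)
  have n2 : |fderiv ℝ (hC L) x (0, 1, 0)| ≤ 1 / 20 := by
    have : |fderiv ℝ (hC L) x (0, 1, 0) - 0| ≤ M / L := q1
    rw [sub_zero] at this
    linarith
  have n3 : |fderiv ℝ (hC L) x (0, 0, 1)| ≤ 1 / 20 := by
    have : |fderiv ℝ (hC L) x (0, 0, 1) - 0| ≤ M / L := r1
    rw [sub_zero] at this
    linarith
  exact Fin_out _ _ _ _ _ _ _ _ _ t1 t2 t3 n1 n2 n3 f1 f2 f3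

/-- The algebra in the inner region, for the unit vector `n = N`. -/
theorem Fin_in (V n : V3) (hn : nsq3 n = 1) (hV : nsq3 V < 4 * dot3 V n) :
    0 < dot3 V n ∧ nsq3 (V - n) - (dot3 (V - n) n) ^ 2 < 4 * dot3 V n * dot3 n n := by
  have h0 := Cfn_nsq_nonneg V
  have h1 : 0 < dot3 V n := by linarith
  refine ⟨h1, ?_⟩
  have e1 : nsq3 (V - n) = nsq3 V - 2 * dot3 V n + nsq3 n := by
    simp only [nsq3, dot3, Prod.fst_sub, Prod.snd_sub]
    ring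
  have e2 : dot3 (V - n) n = dot3 V n - nsq3 n := by
    simp only [nsq3, dot3, Prod.fst_sub, Prod.snd_sub]
    ring
  have e3 : dot3 n n = nsq3 n := by
    simp only [nsq3, dot3]
    ring
  rw [e1, e2, e3, hn]
  nlinarith [sq_nonneg (dot3 V n)]

theorem Fin_tame_in (L : ℝ) (hL : 1 ≤ L) (x : V3) (hx : nsq3 x < L ^ 2) (h : hC L x = 0) :
    0 < dot3 ((1, 0, 0) + curl3 (hGa L) x) (nrm (hG L x)) ∧
    nsq3 ((1, 0, 0) + curl3 (hGa L) x - grad3 (hC L) x)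
      - (dot3 ((1, 0, 0) + curl3 (hGa L) x - grad3 (hC L) x) (nrm (hG L x))) ^ 2
    < 4 * dot3 ((1, 0, 0) + curl3 (hGa L) x) (nrm (hG L x)) * dot3 (grad3 (hC L) x)
        (nrm (hG L x)) := by
  have h0 := Cfn_nsq_nonneg x
  have hs : (0 : ℝ) < 1 + nsq3 x := by linarith
  have hc : c0 x = 0 := by
    have e := (Cfn_main L hL).2.2.1 x hx.le
    rw [h] at e
    have e' : 1 * c0 x / (1 + nsq3 x) = 0 := e.symm
    rw [one_mul] at e'
    exact (div_eq_zero_iff.1 e').resolve_right hs.ne'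
  obtain ⟨hD, hG4, hGn, hg⟩ := AlgA_main x hc
  have hl : hLam L x = 1 := Cfn_lam_one L hL x hx.le
  have hl3 : hLam3 L x = 1 := by
    apply Gau_cut_one _ _ _ (by positivity)
    have e : nsq3 x = x.1 ^ 2 + x.2.1 ^ 2 + x.2.2 ^ 2 := rfl
    nlinarith [sq_nonneg x.1]
  have hp := Gau_pos L hL x
  rw [hl, hl3] at hp
  set D := pE0 1 x + pE3 1 x with hDdef
  set s := (Real.sqrt (nsq4 (pG 1 1 x)))⁻¹ with hsdef
  have hsG : s ^ 2 * ((1 + nsq3 x) * D ^ 2) = 1 := by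
    rw [← hG4, hsdef, inv_pow, Real.sq_sqrt hp.le]
    exact inv_mul_cancel₀ hp.ne'
  have hGe : hG L x = smul4 s (pG 1 1 x) := by
    unfold hG
    rw [hl, hl3]
  have hsD : s ^ 2 * D ^ 2 = (1 + nsq3 x)⁻¹ := by
    apply eq_inv_of_mul_eq_one_left
    linarith
  have hn : nrm (hG L x) = ((gc0 x).1 / (1 + nsq3 x), (gc0 x).2.1 / (1 + nsq3 x),
      (gc0 x).2.2 / (1 + nsq3 x)) := by
    rw [hGe, Fin_nrm_smul, hGn]
    refine Prod.ext ?_ (Prod.ext ?_ ?_)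
    · show s ^ 2 * (D ^ 2 * (gc0 x).1) = (gc0 x).1 / (1 + nsq3 x)
      rw [← mul_assoc, hsD, div_eq_mul_inv, mul_comm]
    · show s ^ 2 * (D ^ 2 * (gc0 x).2.1) = (gc0 x).2.1 / (1 + nsq3 x)
      rw [← mul_assoc, hsD, div_eq_mul_inv, mul_comm]
    · show s ^ 2 * (D ^ 2 * (gc0 x).2.2) = (gc0 x).2.2 / (1 + nsq3 x)
      rw [← mul_assoc, hsD, div_eq_mul_inv, mul_comm]
  have hN : grad3 (hC L) x = ((gc0 x).1 / (1 + nsq3 x), (gc0 x).2.1 / (1 + nsq3 x),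
      (gc0 x).2.2 / (1 + nsq3 x)) := by
    rw [GrdC_grad L x hx, hc]
    refine Prod.ext ?_ (Prod.ext ?_ ?_) <;> simp only <;> field_simp <;> ring
  have hV := GrdG_curl L x hx
  rw [hN, hn, hV]
  apply Fin_in
  · have e : nsq3 ((gc0 x).1 / (1 + nsq3 x), (gc0 x).2.1 / (1 + nsq3 x),
        (gc0 x).2.2 / (1 + nsq3 x)) = nsq3 (gc0 x) / (1 + nsq3 x) ^ 2 := by
      show ((gc0 x).1 / (1 + nsq3 x)) ^ 2 + ((gc0 x).2.1 / (1 + nsq3 x)) ^ 2
        + ((gc0 x).2.2 / (1 + nsq3 x)) ^ 2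
        = ((gc0 x).1 ^ 2 + (gc0 x).2.1 ^ 2 + (gc0 x).2.2 ^ 2) / (1 + nsq3 x) ^ 2
      rw [div_pow, div_pow, div_pow]
      ring
    rw [e, hg]
    exact div_self (pow_ne_zero 2 hs.ne')
  · have hB := AlgB_main x hc
    have e1 : nsq3 ((vV x).1 / (1 + nsq3 x) ^ 3, (vV x).2.1 / (1 + nsq3 x) ^ 3,
        (vV x).2.2 / (1 + nsq3 x) ^ 3) = nsq3 (vV x) / (1 + nsq3 x) ^ 6 := by
      show ((vV x).1 / (1 + nsq3 x) ^ 3) ^ 2 + ((vV x).2.1 / (1 + nsq3 x) ^ 3) ^ 2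
        + ((vV x).2.2 / (1 + nsq3 x) ^ 3) ^ 2
        = ((vV x).1 ^ 2 + (vV x).2.1 ^ 2 + (vV x).2.2 ^ 2) / (1 + nsq3 x) ^ 6
      rw [div_pow, div_pow, div_pow]
      ring
    have e2 : dot3 ((vV x).1 / (1 + nsq3 x) ^ 3, (vV x).2.1 / (1 + nsq3 x) ^ 3,
        (vV x).2.2 / (1 + nsq3 x) ^ 3) ((gc0 x).1 / (1 + nsq3 x), (gc0 x).2.1 / (1 + nsq3 x),
        (gc0 x).2.2 / (1 + nsq3 x)) = dot3 (vV x) (gc0 x) / (1 + nsq3 x) ^ 4 := by
      show ((vV x).1 / (1 + nsq3 x) ^ 3) * ((gc0 x).1 / (1 + nsq3 x))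
        + ((vV x).2.1 / (1 + nsq3 x) ^ 3) * ((gc0 x).2.1 / (1 + nsq3 x))
        + ((vV x).2.2 / (1 + nsq3 x) ^ 3) * ((gc0 x).2.2 / (1 + nsq3 x))
        = ((vV x).1 * (gc0 x).1 + (vV x).2.1 * (gc0 x).2.1 + (vV x).2.2 * (gc0 x).2.2)
          / (1 + nsq3 x) ^ 4
      field_simp
    rw [e1, e2, div_lt_iff₀ (by positivity)]
    have e3 : 4 * (dot3 (vV x) (gc0 x) / (1 + nsq3 x) ^ 4) * (1 + nsq3 x) ^ 6
        = 4 * (1 + nsq3 x) ^ 2 * dot3 (vV x) (gc0 x) := by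
      field_simp
    rw [e3]
    exact hB

/-- Block HD of MP_46177c: the explicit handle. -/
theorem hd : HDSpec := by
  obtain ⟨M, hM0, hM⟩ := Scl_main
  have hL0 : (1000 : ℝ) ≤ max 1000 (40 * M) := le_max_left _ _
  have hLM : 40 * M ≤ max 1000 (40 * M) := le_max_right _ _
  generalize max 1000 (40 * M) = L at hL0 hLM
  have hL1 : 1 ≤ L := by linarith
  have hLp : 0 < L := by linarith
  have hML : M / L ≤ 1 / 40 := by
    rw [div_le_iff₀ hLp]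
    linarith
  obtain ⟨c1, c2, c3, c4, c5⟩ := Cfn_main L hL1
  obtain ⟨g1, g2, g3, g4⟩ := Gau_main L hL1
  have htame : ∀ x, hC L x = 0 →
      0 < dot3 ((1, 0, 0) + curl3 (hGa L) x) (nrm (hG L x)) ∧
      nsq3 ((1, 0, 0) + curl3 (hGa L) x - grad3 (hC L) x)
        - (dot3 ((1, 0, 0) + curl3 (hGa L) x - grad3 (hC L) x) (nrm (hG L x))) ^ 2
      < 4 * dot3 ((1, 0, 0) + curl3 (hGa L) x) (nrm (hG L x)) * dot3 (grad3 (hC L) x)
          (nrm (hG L x)) := by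
    intro x hx
    rcases lt_or_ge (nsq3 x) (L ^ 2) with h | h
    · exact Fin_tame_in L hL1 x h hx
    · exact Fin_tame_out M L hL0 hML (hM L hL1) x h hx
  exact ⟨{ c := hC L
           ga := hGa L
           g := hG L
           B := 5 * L
           L := L
           K := 1
           Sb := 2
           hL := hL1
           hLB := by linarith
           hK := one_pos
           c_smooth := c1
           ga_smooth := c2
           g_smooth := g1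
           c_core := c3
           c_far := fun x hx => (c4 x (by nlinarith)).1
           ga_far := fun x hx => (c4 x (by nlinarith)).2
           c_mono := by
             intro x hx
             rcases lt_or_ge (nsq3 x) (L ^ 2) with h | h
             · rcases hx with h' | h'
               · linarith
               · exact GrdC_mono L x h h'
             · have h1 := (hM L hL1 x h (1, 0, 0) (Or.inl rfl)).1
               have h2 : |fderiv ℝ (hC L) x (1, 0, 0) - 1| ≤ M / L := h1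
               have h3 := (abs_le.1 h2).1
               linarith
           c_bound := c5
           g_unit := g2
           g_ne := g3
           g_far := g4
           tame_pos := fun x hx => (htame x hx).1
           tame := fun x hx => (htame x hx).2 }⟩

end Pool.Agent.H31.SYHD
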