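import Pool.Agent.H31.SYHD.Dfs

/-!
# HD row Gau : the gauge `hG` is a smooth map to the unit quaternions without `-1`

`l = hLam L x`, `m = hLam3 L x`, both in `[0, 1]` (`Real.smoothTransition.nonneg`, `le_one`).
1. `nsq4 (pG l m x) = (l² + m² x₁² + x₂² + x₃²) (E0² + 2 E1² + E3²)` (ring).
2. second factor `> 0`: if `l > 0` and `E0 = 0` then `r = l²` and `x₂ = 0`, so `E3 = 4 l² (x₁²+x₃²) =
   4 l⁴ > 0`; if `l = 0` then (`nsq3 x ≥ L² ≥ 1`, because `l = 1` for `nsq3 x ≤ L²`) `E0 = r² > 0`.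
   First factor `> 0`: if `l = 0` and `x₂ = x₃ = 0` then `m = 1` (`x₂²+x₃² = 0 ≤ 16 L²`) and
   `x₁² = nsq3 x ≥ L² > 0`.
3. smooth: `cut` is smooth (`Real.smoothTransition.contDiff`), polynomials, `Real.sqrt` at positive
   arguments (`ContDiff.sqrt`), inverse.
4. `nsq4 (smul4 r g) = r² nsq4 g`, so `nsq4 (hG L x) = 1`.
5. `hG L x ≠ (-1,0,0,0)`: otherwise `pG l m x = (-μ, 0, 0, 0)` with `μ = √nsq4 > 0`.  Identity (ring):
   `l·G0 + m x₁·G1 + x₂·G2 + x₃·G3 = (l² + m² x₁² + x₂² + x₃²) E0` (real part of `Ā G`), so `-l μ = |A|² E0`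
   with `|A|² > 0`, `E0 ≥ 0`, `l ≥ 0`: so `E0 = 0` and `l = 0`; but `l = 0` gives `E0 = r² > 0`.
6. far: `(5L)² ≤ x₂²+x₃²` gives `l = 0` (`nsq3 x ≥ 25 L² ≥ 4 L²`) and `m = 0` (`25 L² = 16 L² + 9 L²`), so
   `pG 0 0 x = (0, 0, x₂ r², x₃ r²)`, `nsq4 = (x₂²+x₃²) r⁴`, `√.. = √(x₂²+x₃²) r²`.
Note `1 - Real.smoothTransition t = 1` for `t ≤ 0` (`Real.smoothTransition.zero_of_nonpos`) and `= 0` for
`1 ≤ t` (`Real.smoothTransition.one_of_one_le`).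
-/
set_option autoImplicit false

open scoped ContDiff

namespace Pool.Agent.H31.SYHD

open Pool.Agent.H34.SY

theorem Gau_cut_nonneg (a T s : ℝ) : 0 ≤ cut a T s := by
  unfold cut
  linarith [Real.smoothTransition.le_one ((s - a) / T)]

theorem Gau_cut_one (a T s : ℝ) (hT : 0 < T) (h : s ≤ a) : cut a T s = 1 := by
  unfold cut
  rw [Real.smoothTransition.zero_of_nonpos (div_nonpos_of_nonpos_of_nonneg (by linarith) hT.le)]
  ring

theorem Gau_cut_zero (a T s : ℝ) (hT : 0 < T) (h : a + T ≤ s) : cut a T s = 0 := by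
  unfold cut
  rw [Real.smoothTransition.one_of_one_le (by rw [le_div_iff₀ hT]; linarith)]
  ring

theorem Gau_cut_smooth (a T : ℝ) : ContDiff ℝ ∞ (cut a T) := by
  unfold cut
  have h1 : ContDiff ℝ ∞ (fun s : ℝ => (s - a) / T) := by
    simp only [div_eq_mul_inv]
    exact (contDiff_id.sub contDiff_const).mul contDiff_const
  exact contDiff_const.sub (Real.smoothTransition.contDiff.comp h1)

theorem Gau_norm (l m a b c E0 E1 E3 : ℝ) :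
    (l * E0 - m * a * E1 - b * E3 - c * E1) ^ 2 + (l * E1 + m * a * E0 + b * E1 - c * E3) ^ 2
      + (l * E3 - m * a * E1 + b * E0 + c * E1) ^ 2 + (l * E1 + m * a * E3 - b * E1 + c * E0) ^ 2
      = (l ^ 2 + m ^ 2 * a ^ 2 + b ^ 2 + c ^ 2) * (E0 ^ 2 + 2 * E1 ^ 2 + E3 ^ 2) := by
  ring

theorem Gau_E0_zero (L : ℝ) (hL : 1 ≤ L) (x : V3) (h : pE0 (hLam L x) x = 0) :
    0 < hLam L x ∧ 0 < pE3 (hLam L x) x := by
  obtain ⟨a, b, c⟩ := x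
  set l := hLam L (a, b, c) with hl
  have hl0 : 0 ≤ l := Gau_cut_nonneg _ _ _
  have h0 : (nsq3 (a, b, c) - l ^ 2) ^ 2 + 4 * l ^ 2 * b ^ 2 = 0 := h
  have h1 : (nsq3 (a, b, c) - l ^ 2) ^ 2 = 0 := by
    nlinarith [sq_nonneg (nsq3 (a, b, c) - l ^ 2), mul_nonneg (sq_nonneg l) (sq_nonneg b)]
  have h2 : 4 * l ^ 2 * b ^ 2 = 0 := by linarith
  have h3 : nsq3 (a, b, c) = l ^ 2 := by
    have := pow_eq_zero_iff (two_ne_zero) |>.1 h1
    linarith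
  have hlpos : 0 < l := by
    rcases hl0.eq_or_lt with h4 | h4
    · exfalso
      have h5 : nsq3 (a, b, c) = 0 := by rw [h3, ← h4]; ring
      have h6 : l = 1 := by
        rw [hl]
        apply Gau_cut_one _ _ _ (by positivity)
        rw [h5]; positivity
      linarith
    · exact h4
  refine ⟨hlpos, ?_⟩
  have h7 : b ^ 2 = 0 := by
    rcases mul_eq_zero.1 h2 with h | h
    · exfalso; have : 0 < 4 * l ^ 2 := by positivity
      linarith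
    · exact h
  have h8 : a ^ 2 + c ^ 2 = l ^ 2 := by
    have : nsq3 (a, b, c) = a ^ 2 + b ^ 2 + c ^ 2 := rfl
    rw [this, h7] at h3
    linarith
  show 0 < 4 * l ^ 2 * (a ^ 2 + c ^ 2)
  rw [h8]
  positivity

theorem Gau_A_pos (L : ℝ) (hL : 1 ≤ L) (x : V3) :
    0 < hLam L x ^ 2 + hLam3 L x ^ 2 * x.1 ^ 2 + x.2.1 ^ 2 + x.2.2 ^ 2 := by
  obtain ⟨a, b, c⟩ := x
  have hl0 : 0 ≤ hLam L (a, b, c) := Gau_cut_nonneg _ _ _
  by_contra hcon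
  push Not at hcon
  have n1 : 0 ≤ hLam L (a, b, c) ^ 2 := sq_nonneg _
  have n2 : 0 ≤ hLam3 L (a, b, c) ^ 2 * a ^ 2 := by positivity
  have n3 : 0 ≤ b ^ 2 := sq_nonneg _
  have n4 : 0 ≤ c ^ 2 := sq_nonneg _
  have hcon' : hLam L (a, b, c) ^ 2 + hLam3 L (a, b, c) ^ 2 * a ^ 2 + b ^ 2 + c ^ 2 ≤ 0 := hcon
  have e1 : hLam L (a, b, c) ^ 2 = 0 := by linarith
  have e2 : hLam3 L (a, b, c) ^ 2 * a ^ 2 = 0 := by linarith
  have e3 : b ^ 2 = 0 := by linarith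
  have e4 : c ^ 2 = 0 := by linarith
  have e5 : hLam L (a, b, c) = 0 := by simpa using e1
  have e6 : hLam3 L (a, b, c) = 1 := by
    apply Gau_cut_one _ _ _ (by positivity)
    show b ^ 2 + c ^ 2 ≤ _
    have := sq_nonneg L
    linarith
  have e7 : a ^ 2 = 0 := by rw [e6] at e2; simpa using e2
  have e8 : hLam L (a, b, c) = 1 := by
    apply Gau_cut_one _ _ _ (by positivity)
    show a ^ 2 + b ^ 2 + c ^ 2 ≤ _
    have := sq_nonneg L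
    linarith
  linarith

theorem Gau_pos (L : ℝ) (hL : 1 ≤ L) (x : V3) :
    0 < nsq4 (pG (hLam L x) (hLam3 L x) x) := by
  have h1 : nsq4 (pG (hLam L x) (hLam3 L x) x)
      = (hLam L x ^ 2 + hLam3 L x ^ 2 * x.1 ^ 2 + x.2.1 ^ 2 + x.2.2 ^ 2)
        * (pE0 (hLam L x) x ^ 2 + 2 * pE1 (hLam L x) x ^ 2 + pE3 (hLam L x) x ^ 2) :=
    Gau_norm _ _ _ _ _ _ _ _
  rw [h1]
  apply mul_pos (Gau_A_pos L hL x)
  by_contra hcon
  push Not at hcon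
  have n1 := sq_nonneg (pE0 (hLam L x) x)
  have n2 := sq_nonneg (pE1 (hLam L x) x)
  have n3 := sq_nonneg (pE3 (hLam L x) x)
  have e0 : pE0 (hLam L x) x ^ 2 = 0 := by linarith
  have e3 : pE3 (hLam L x) x ^ 2 = 0 := by linarith
  have e0' : pE0 (hLam L x) x = 0 := by simpa using e0
  have e3' : pE3 (hLam L x) x = 0 := by simpa using e3
  have := (Gau_E0_zero L hL x e0').2
  linarith

theorem Gau_nsq3_smooth : ContDiff ℝ ∞ (nsq3 : V3 → ℝ) := by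
  unfold nsq3
  have h1 : ContDiff ℝ ∞ (fun a : V3 => a.1) := contDiff_fst
  have h2 : ContDiff ℝ ∞ (fun a : V3 => a.2.1) := contDiff_fst.comp contDiff_snd
  have h3 : ContDiff ℝ ∞ (fun a : V3 => a.2.2) := contDiff_snd.comp contDiff_snd
  exact ((h1.pow 2).add (h2.pow 2)).add (h3.pow 2)

theorem Gau_lam_smooth (L : ℝ) : ContDiff ℝ ∞ (hLam L) :=
  (Gau_cut_smooth _ _).comp Gau_nsq3_smooth

theorem Gau_lam3_smooth (L : ℝ) : ContDiff ℝ ∞ (hLam3 L) := by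
  have h2 : ContDiff ℝ ∞ (fun a : V3 => a.2.1) := contDiff_fst.comp contDiff_snd
  have h3 : ContDiff ℝ ∞ (fun a : V3 => a.2.2) := contDiff_snd.comp contDiff_snd
  exact (Gau_cut_smooth _ _).comp ((h2.pow 2).add (h3.pow 2))

theorem Gau_smooth (L : ℝ) (hL : 1 ≤ L) : ContDiff ℝ ∞ (hG L) := by
  have h1 : ContDiff ℝ ∞ (fun a : V3 => a.1) := contDiff_fst
  have h2 : ContDiff ℝ ∞ (fun a : V3 => a.2.1) := contDiff_fst.comp contDiff_snd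
  have h3 : ContDiff ℝ ∞ (fun a : V3 => a.2.2) := contDiff_snd.comp contDiff_snd
  have hl := Gau_lam_smooth L
  have hm := Gau_lam3_smooth L
  have hn := Gau_nsq3_smooth
  have hE0 : ContDiff ℝ ∞ (fun x : V3 => pE0 (hLam L x) x) := by
    unfold pE0
    exact ((hn.sub (hl.pow 2)).pow 2).add ((contDiff_const.mul (hl.pow 2)).mul (h2.pow 2))
  have hE1 : ContDiff ℝ ∞ (fun x : V3 => pE1 (hLam L x) x) := by
    unfold pE1
    exact (((contDiff_const.mul hl).mul (hn.sub (hl.pow 2))).mul h3).sub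
      (((contDiff_const.mul (hl.pow 2)).mul h1).mul h2)
  have hE3 : ContDiff ℝ ∞ (fun x : V3 => pE3 (hLam L x) x) := by
    unfold pE3
    exact (contDiff_const.mul (hl.pow 2)).mul ((h1.pow 2).add (h3.pow 2))
  have g0 : ContDiff ℝ ∞ (fun x : V3 => (pG (hLam L x) (hLam3 L x) x).1) :=
    (((hl.mul hE0).sub ((hm.mul h1).mul hE1)).sub (h2.mul hE3)).sub (h3.mul hE1)
  have g1 : ContDiff ℝ ∞ (fun x : V3 => (pG (hLam L x) (hLam3 L x) x).2.1) :=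
    (((hl.mul hE1).add ((hm.mul h1).mul hE0)).add (h2.mul hE1)).sub (h3.mul hE3)
  have g2 : ContDiff ℝ ∞ (fun x : V3 => (pG (hLam L x) (hLam3 L x) x).2.2.1) :=
    (((hl.mul hE3).sub ((hm.mul h1).mul hE1)).add (h2.mul hE0)).add (h3.mul hE1)
  have g3 : ContDiff ℝ ∞ (fun x : V3 => (pG (hLam L x) (hLam3 L x) x).2.2.2) :=
    (((hl.mul hE1).add ((hm.mul h1).mul hE3)).sub (h2.mul hE1)).add (h3.mul hE0)
  have hN : ContDiff ℝ ∞ (fun x : V3 => nsq4 (pG (hLam L x) (hLam3 L x) x)) := by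
    unfold nsq4
    exact (((g0.pow 2).add (g1.pow 2)).add (g2.pow 2)).add (g3.pow 2)
  have hs : ContDiff ℝ ∞ (fun x : V3 =>
      (Real.sqrt (nsq4 (pG (hLam L x) (hLam3 L x) x)))⁻¹) := by
    apply ContDiff.inv
    · exact hN.sqrt (fun x => (Gau_pos L hL x).ne')
    · intro x
      exact (Real.sqrt_pos.2 (Gau_pos L hL x)).ne'
  unfold hG smul4
  exact (hs.mul g0).prodMk ((hs.mul g1).prodMk ((hs.mul g2).prodMk (hs.mul g3)))

theorem Gau_smul (r : ℝ) (g : V4) : nsq4 (smul4 r g) = r ^ 2 * nsq4 g := by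
  simp only [nsq4, smul4]
  ring

theorem Gau_unit (L : ℝ) (hL : 1 ≤ L) (x : V3) : nsq4 (hG L x) = 1 := by
  have hp := Gau_pos L hL x
  unfold hG
  rw [Gau_smul, inv_pow, Real.sq_sqrt hp.le]
  exact inv_mul_cancel₀ hp.ne'

theorem Gau_real (l m a b c E0 E1 E3 : ℝ) :
    l * (l * E0 - m * a * E1 - b * E3 - c * E1) + m * a * (l * E1 + m * a * E0 + b * E1 - c * E3)
      + b * (l * E3 - m * a * E1 + b * E0 + c * E1) + c * (l * E1 + m * a * E3 - b * E1 + c * E0)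
      = (l ^ 2 + m ^ 2 * a ^ 2 + b ^ 2 + c ^ 2) * E0 := by
  ring

theorem Gau_ne (L : ℝ) (hL : 1 ≤ L) (x : V3) : hG L x ≠ (-1, 0, 0, 0) := by
  intro h
  have hp := Gau_pos L hL x
  have hs : 0 < Real.sqrt (nsq4 (pG (hLam L x) (hLam3 L x) x)) := Real.sqrt_pos.2 hp
  set μ := Real.sqrt (nsq4 (pG (hLam L x) (hLam3 L x) x)) with hμ
  have k0 : μ⁻¹ * (pG (hLam L x) (hLam3 L x) x).1 = -1 := congrArg (fun g : V4 => g.1) h
  have k1 : μ⁻¹ * (pG (hLam L x) (hLam3 L x) x).2.1 = 0 := congrArg (fun g : V4 => g.2.1) h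
  have k2 : μ⁻¹ * (pG (hLam L x) (hLam3 L x) x).2.2.1 = 0 := congrArg (fun g : V4 => g.2.2.1) h
  have k3 : μ⁻¹ * (pG (hLam L x) (hLam3 L x) x).2.2.2 = 0 := congrArg (fun g : V4 => g.2.2.2) h
  have hi : μ⁻¹ ≠ 0 := inv_ne_zero hs.ne'
  have q0 : (pG (hLam L x) (hLam3 L x) x).1 = -μ := by
    have : μ * (μ⁻¹ * (pG (hLam L x) (hLam3 L x) x).1) = μ * (-1) := by rw [k0]
    rw [← mul_assoc, mul_inv_cancel₀ hs.ne', one_mul] at this
    linarith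
  have q1 : (pG (hLam L x) (hLam3 L x) x).2.1 = 0 := (mul_eq_zero.1 k1).resolve_left hi
  have q2 : (pG (hLam L x) (hLam3 L x) x).2.2.1 = 0 := (mul_eq_zero.1 k2).resolve_left hi
  have q3 : (pG (hLam L x) (hLam3 L x) x).2.2.2 = 0 := (mul_eq_zero.1 k3).resolve_left hi
  have key : hLam L x * (pG (hLam L x) (hLam3 L x) x).1
      + hLam3 L x * x.1 * (pG (hLam L x) (hLam3 L x) x).2.1
      + x.2.1 * (pG (hLam L x) (hLam3 L x) x).2.2.1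
      + x.2.2 * (pG (hLam L x) (hLam3 L x) x).2.2.2
      = (hLam L x ^ 2 + hLam3 L x ^ 2 * x.1 ^ 2 + x.2.1 ^ 2 + x.2.2 ^ 2) * pE0 (hLam L x) x :=
    Gau_real _ _ _ _ _ _ _ _
  rw [q0, q1, q2, q3] at key
  have hA := Gau_A_pos L hL x
  have hl0 : 0 ≤ hLam L x := Gau_cut_nonneg _ _ _
  have hE : 0 ≤ pE0 (hLam L x) x := by unfold pE0; positivity
  have h5 : 0 ≤ (hLam L x ^ 2 + hLam3 L x ^ 2 * x.1 ^ 2 + x.2.1 ^ 2 + x.2.2 ^ 2)
      * pE0 (hLam L x) x := mul_nonneg hA.le hE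
  have h6 : 0 ≤ hLam L x * μ := mul_nonneg hl0 hs.le
  have h7 : (hLam L x ^ 2 + hLam3 L x ^ 2 * x.1 ^ 2 + x.2.1 ^ 2 + x.2.2 ^ 2)
      * pE0 (hLam L x) x = 0 := by linarith
  have h8 : pE0 (hLam L x) x = 0 := (mul_eq_zero.1 h7).resolve_left hA.ne'
  have h9 := (Gau_E0_zero L hL x h8).1
  have h10 : hLam L x * μ = 0 := by linarith
  have h11 := mul_pos h9 hs
  linarith

theorem Gau_far (L : ℝ) (hL : 1 ≤ L) (x : V3) (hx : (5 * L) ^ 2 ≤ x.2.1 ^ 2 + x.2.2 ^ 2) :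
    hG L x = (0, 0, x.2.1 / Real.sqrt (x.2.1 ^ 2 + x.2.2 ^ 2),
      x.2.2 / Real.sqrt (x.2.1 ^ 2 + x.2.2 ^ 2)) := by
  obtain ⟨a, b, c⟩ := x
  have hx' : (5 * L) ^ 2 ≤ b ^ 2 + c ^ 2 := hx
  have hl : hLam L (a, b, c) = 0 := by
    apply Gau_cut_zero _ _ _ (by positivity)
    show _ ≤ a ^ 2 + b ^ 2 + c ^ 2
    nlinarith [sq_nonneg a]
  have hm : hLam3 L (a, b, c) = 0 := by
    apply Gau_cut_zero _ _ _ (by positivity)
    show _ ≤ b ^ 2 + c ^ 2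
    nlinarith
  have hbc : 0 < b ^ 2 + c ^ 2 := by nlinarith
  set r : ℝ := nsq3 (a, b, c) with hr
  have hr0 : 0 < r := by
    show 0 < a ^ 2 + b ^ 2 + c ^ 2
    nlinarith [sq_nonneg a]
  have hG0 : pG (hLam L (a, b, c)) (hLam3 L (a, b, c)) (a, b, c)
      = (0, 0, b * r ^ 2, c * r ^ 2) := by
    rw [hl, hm]
    simp only [pG, pE0, pE1, pE3, ← hr]
    refine Prod.ext ?_ (Prod.ext ?_ (Prod.ext ?_ ?_)) <;> simp
  have hn : nsq4 ((0, 0, b * r ^ 2, c * r ^ 2) : V4) = (b ^ 2 + c ^ 2) * (r ^ 2) ^ 2 := by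
    simp only [nsq4]
    ring
  have hsq : Real.sqrt ((b ^ 2 + c ^ 2) * (r ^ 2) ^ 2) = Real.sqrt (b ^ 2 + c ^ 2) * r ^ 2 := by
    rw [Real.sqrt_mul hbc.le, Real.sqrt_sq (by positivity)]
  unfold hG
  rw [hG0, hn, hsq]
  have hs : 0 < Real.sqrt (b ^ 2 + c ^ 2) := Real.sqrt_pos.2 hbc
  simp only [smul4]
  refine Prod.ext ?_ (Prod.ext ?_ (Prod.ext ?_ ?_))
  · simp
  · simp
  · show (Real.sqrt (b ^ 2 + c ^ 2) * r ^ 2)⁻¹ * (b * r ^ 2) = b / Real.sqrt (b ^ 2 + c ^ 2)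
    field_simp
  · show (Real.sqrt (b ^ 2 + c ^ 2) * r ^ 2)⁻¹ * (c * r ^ 2) = c / Real.sqrt (b ^ 2 + c ^ 2)
    field_simp

theorem Gau_main (L : ℝ) (hL : 1 ≤ L) :
    ContDiff ℝ ∞ (hG L) ∧ (∀ x, nsq4 (hG L x) = 1) ∧ (∀ x, hG L x ≠ (-1, 0, 0, 0)) ∧
    ∀ x : V3, (5 * L) ^ 2 ≤ x.2.1 ^ 2 + x.2.2 ^ 2 →
      hG L x = (0, 0, x.2.1 / Real.sqrt (x.2.1 ^ 2 + x.2.2 ^ 2),
        x.2.2 / Real.sqrt (x.2.1 ^ 2 + x.2.2 ^ 2)) :=
  ⟨Gau_smooth L hL, Gau_unit L hL, Gau_ne L hL, Gau_far L hL⟩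

end Pool.Agent.H31.SYHD
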