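import Pool.Agent.H31.SYHD.Cfn

/-!
# HD row GrdC : gradient of `hC` on `|x| < L`

On the open set `nsq3 x < L²` (it is open, `nsq3` continuous) `hLam L = 1` (`Real.smoothTransition.zero_of_nonpos`), so `hC L` agrees
near `x` with `c0/(1 + nsq3)`; the derivative in the direction `v` is
`(dc0(v) (1 + r) - c0 dr(v)) / (1 + r)²`, `dr(e_i) = 2 x_i`, `dc0(e_i) = (gc0 x)_i`.
(Use `Filter.EventuallyEq.fderiv_eq`, `HasFDerivAt.div`, or `fderiv f x v = deriv (fun t => f (x + t • v)) 0`.)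
Second statement: the first numerator is `r² - 1 + 4 x₁² - 4 x₁ x₂ x₃`; with `a = |x₁| ≥ 3/4`:
`|4 x₁ x₂ x₃| ≤ 2 a (r - a²)` and `r² - 1 + 4a² - 2a r + 2a³ = (r - a)² + 3a² + 2a³ - 1 > 0`.
-/

set_option autoImplicit false

open scoped ContDiff

namespace Pool.Agent.H31.SYHD

open Pool.Agent.H34.SY

open Filter Topology

theorem GrdC_line {E : Type*} [NormedAddCommGroup E] [NormedSpace ℝ E] (f : V3 → E) (x v : V3)
    (hf : DifferentiableAt ℝ f x) (d : E)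
    (h : HasDerivAt (fun t : ℝ => f (x + t • v)) d 0) : fderiv ℝ f x v = d := by
  have h1 : HasDerivAt (fun t : ℝ => x + t • v) v 0 := by
    simpa using ((hasDerivAt_id (0 : ℝ)).smul_const v).const_add x
  have hf' : HasFDerivAt f (fderiv ℝ f x) (x + (0 : ℝ) • v) := by
    simpa using hf.hasFDerivAt
  have h2 := hf'.comp_hasDerivAt (0 : ℝ) h1
  exact h2.unique h

theorem GrdC_coord (a v : ℝ) : HasDerivAt (fun t : ℝ => a + t * v) v 0 := by
  simpa using ((hasDerivAt_id (0 : ℝ)).mul_const v).const_add a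

theorem GrdC_open (L : ℝ) (x : V3) (hx : nsq3 x < L ^ 2) :
    ∀ᶠ y in 𝓝 x, nsq3 y < L ^ 2 :=
  (Gau_nsq3_smooth.continuous.tendsto x).eventually (gt_mem_nhds hx)

theorem GrdC_L (L : ℝ) (x : V3) (hx : nsq3 x < L ^ 2) : 0 < L ^ 2 := by
  have := Cfn_nsq_nonneg x
  linarith

theorem GrdC_ev (L : ℝ) (x : V3) (hx : nsq3 x < L ^ 2) :
    hC L =ᶠ[𝓝 x] (fun y : V3 => c0 y / (1 + nsq3 y)) := by
  filter_upwards [GrdC_open L x hx] with y hy
  have h0 := GrdC_L L y hy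
  unfold hC c0 hLam
  rw [Gau_cut_one _ _ _ (by linarith) hy.le]
  ring

theorem GrdC_diff (x : V3) : DifferentiableAt ℝ (fun y : V3 => c0 y / (1 + nsq3 y)) x := by
  have h1 : ContDiff ℝ ∞ (fun a : V3 => a.1) := contDiff_fst
  have h2 : ContDiff ℝ ∞ (fun a : V3 => a.2.1) := contDiff_fst.comp contDiff_snd
  have h3 : ContDiff ℝ ∞ (fun a : V3 => a.2.2) := contDiff_snd.comp contDiff_snd
  have hn := Gau_nsq3_smooth
  have hc : ContDiff ℝ ∞ (fun y : V3 => c0 y / (1 + nsq3 y)) := by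
    unfold c0
    exact ((h1.mul (hn.sub contDiff_const)).add ((contDiff_const.mul h2).mul h3)).div
      (contDiff_const.add hn) (fun y => by
        have := Cfn_nsq_nonneg y
        positivity)
  exact (hc.differentiable (by simp)) x

theorem GrdC_dir (x v : V3) : fderiv ℝ (fun y : V3 => c0 y / (1 + nsq3 y)) x v =
    (dot3 (gc0 x) v * (1 + nsq3 x) - c0 x * (2 * dot3 x v)) / (1 + nsq3 x) ^ 2 := by
  apply GrdC_line _ _ _ (GrdC_diff x)
  obtain ⟨a, b, c⟩ := x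
  obtain ⟨v1, v2, v3⟩ := v
  have hA := GrdC_coord a v1
  have hB := GrdC_coord b v2
  have hC' := GrdC_coord c v3
  have hq : HasDerivAt (fun t : ℝ => (a + t * v1) ^ 2 + (b + t * v2) ^ 2 + (c + t * v3) ^ 2)
      (2 * a * v1 + 2 * b * v2 + 2 * c * v3) 0 := by
    refine (((hA.pow 2).add (hB.pow 2)).add (hC'.pow 2)).congr_deriv ?_
    simp
  have hp : HasDerivAt (fun t : ℝ => (a + t * v1)
      * ((a + t * v1) ^ 2 + (b + t * v2) ^ 2 + (c + t * v3) ^ 2 - 1)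
      + 2 * (b + t * v2) * (c + t * v3))
      (v1 * (a ^ 2 + b ^ 2 + c ^ 2 - 1) + a * (2 * a * v1 + 2 * b * v2 + 2 * c * v3)
        + 2 * v2 * c + 2 * b * v3) 0 := by
    refine ((hA.mul (hq.sub_const 1)).add ((hB.const_mul 2).mul hC')).congr_deriv ?_
    simp
    ring
  have hq1 : HasDerivAt (fun t : ℝ => 1 + ((a + t * v1) ^ 2 + (b + t * v2) ^ 2
      + (c + t * v3) ^ 2)) (2 * a * v1 + 2 * b * v2 + 2 * c * v3) 0 := hq.const_add 1
  have hne : (1 : ℝ) + ((a + 0 * v1) ^ 2 + (b + 0 * v2) ^ 2 + (c + 0 * v3) ^ 2) ≠ 0 := by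
    positivity
  refine (hp.div hq1 hne).congr_deriv ?_
  simp only [dot3, gc0, c0, nsq3, zero_mul, add_zero]
  congr 1
  ring

theorem GrdC_grad (L : ℝ) (x : V3) (hx : nsq3 x < L ^ 2) :
    grad3 (hC L) x =
      (((gc0 x).1 * (1 + nsq3 x) - 2 * x.1 * c0 x) / (1 + nsq3 x) ^ 2,
        ((gc0 x).2.1 * (1 + nsq3 x) - 2 * x.2.1 * c0 x) / (1 + nsq3 x) ^ 2,
        ((gc0 x).2.2 * (1 + nsq3 x) - 2 * x.2.2 * c0 x) / (1 + nsq3 x) ^ 2) := by
  have h := (GrdC_ev L x hx).fderiv_eq (𝕜 := ℝ)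
  unfold grad3
  rw [h, GrdC_dir, GrdC_dir, GrdC_dir]
  simp only [dot3, mul_one, mul_zero, add_zero, zero_add]
  refine Prod.ext ?_ (Prod.ext ?_ ?_) <;> simp only <;> ring

theorem GrdC_mono (L : ℝ) (x : V3) (hx : nsq3 x < L ^ 2) (h : 3 / 4 ≤ |x.1|) :
    0 < fderiv ℝ (hC L) x (1, 0, 0) := by
  have h1 : fderiv ℝ (hC L) x (1, 0, 0)
      = ((gc0 x).1 * (1 + nsq3 x) - 2 * x.1 * c0 x) / (1 + nsq3 x) ^ 2 :=
    congrArg (fun g : V3 => g.1) (GrdC_grad L x hx)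
  rw [h1]
  have h0 := Cfn_nsq_nonneg x
  apply div_pos _ (by positivity)
  obtain ⟨a, b, c⟩ := x
  simp only [gc0, c0]
  have hr : nsq3 (a, b, c) = a ^ 2 + b ^ 2 + c ^ 2 := rfl
  set r := nsq3 (a, b, c) with hrr
  have e : (2 * a ^ 2 + r - 1) * (1 + r) - 2 * a * (a * (r - 1) + 2 * b * c)
      = r ^ 2 - 1 + 4 * a ^ 2 - 4 * a * b * c := by ring
  rw [e]
  have ha : 3 / 4 ≤ |a| := h
  have hbc : b ^ 2 + c ^ 2 = r - a ^ 2 := by linarith
  have k1 : 4 * a * b * c ≤ 2 * |a| * (r - a ^ 2) := by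
    rw [← hbc]
    rcases abs_cases a with ⟨h5, h6⟩ | ⟨h5, h6⟩
    · rw [h5]
      nlinarith [mul_nonneg h6 (sq_nonneg (b - c))]
    · rw [h5]
      nlinarith [mul_nonneg (by linarith : (0 : ℝ) ≤ -a) (sq_nonneg (b + c))]
  have k2 : a ^ 2 = |a| ^ 2 := (sq_abs a).symm
  rw [k2] at k1 ⊢
  set t := |a|
  nlinarith [sq_nonneg (r - t), mul_nonneg (by linarith : (0 : ℝ) ≤ t - 3 / 4) (sq_nonneg t),
    sq_nonneg t]

end Pool.Agent.H31.SYHD
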